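import Mathlib
import Pool.Agent.Helper6.MR.Iface

/-!
# Project MR (MP_e0aac0_nt): interfaces for ordinary averages at almost all scales

Propositions only; no theorem is stated. `n ≤ M` is an ordinary average, `M ≤ X` a logarithmic
average. `ENT2`, `CIRC2`, `EXP2` replace `ENT`, `CIRC`, `EXP`.
-/

set_option autoImplicit false

namespace MRP

open Finset

/-- Block A: entropy decrement at the scale `M`, for almost all `M ≤ X`. -/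
def ENT2 : Prop :=
  ∀ ε : ℝ, 0 < ε → ∀ P0 : ℕ, ∃ P1 X0 : ℕ, ∀ X : ℕ, X0 ≤ X → ∀ a b : ℕ → ℝ,
    (∀ m, a m = 0 ∨ a m = 1) → (∀ m, b m = 0 ∨ b m = 1) →
    ∃ P : ℕ, P0 ≤ P ∧ P ≤ P1 ∧
      ∑ M ∈ Finset.Icc 1 X, (1 / (M : ℝ)) * ((1 / ((dyP P).card : ℝ)) * ∑ p ∈ dyP P,
        |(1 / (M : ℝ)) * ∑ n ∈ Finset.Icc 1 M,
          (if p ∣ n then (p : ℝ) - 1 else -1) * (dn a (Om n) * dn b (Om (n + p)))|) ≤
        ε * Real.log X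

/-- Block B: the circle step; `A` may depend on the scale `M`. -/
def CIRC2 : Prop :=
  ∀ ε : ℝ, 0 < ε → ∃ P0 : ℕ, ∀ P : ℕ, P0 ≤ P → ∃ X0 : ℕ, ∀ X : ℕ, X0 ≤ X →
    ∀ (A : ℕ → ℕ → ℝ) (b : ℕ → ℝ), (∀ M n, |A M n| ≤ 1) → (∀ m, |b m| ≤ 1) →
      ∑ M ∈ Finset.Icc 1 X, (1 / (M : ℝ)) * ∑ p ∈ dyP P,
        |(1 / (M : ℝ)) * ∑ n ∈ Finset.Icc 1 M, A M n * (b (Om (n + p)) - mX X b)| ≤
        ε * (dyP P).card * Real.log X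

/-- Block C: short exponential sums; the frequency may depend on the scale `M`. -/
def EXP2 : Prop :=
  ∀ ε : ℝ, 0 < ε → ∃ H0 : ℕ, ∀ H : ℕ, H0 ≤ H → ∃ X0 : ℕ, ∀ X : ℕ, X0 ≤ X →
    ∀ b : ℕ → ℝ, (∀ m, |b m| ≤ 1) → ∀ α : ℕ → ℝ,
      ∑ M ∈ Finset.Icc 1 X, (1 / (M : ℝ)) * ((1 / (M : ℝ)) * ∑ n ∈ Finset.Icc 1 M,
        ‖∑ j ∈ Finset.Icc 1 H, ((b (Om (n + j)) - mX X b : ℝ) : ℂ) * eC ((j : ℝ) * α M)‖) ≤
          ε * H * Real.log X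

/-- Block F: the law of `Ω` on `n ≤ M` for `X ^ ε ≤ M ≤ X`. -/
def LAW0 : Prop :=
  ∀ ε : ℝ, 0 < ε → ∃ X0 : ℕ, ∀ X : ℕ, X0 ≤ X → ∀ M : ℕ, (X : ℝ) ^ ε ≤ M → M ≤ X →
    ∀ b : ℕ → ℝ, (∀ m, |b m| ≤ 1) →
      |(1 / (M : ℝ)) * ∑ n ∈ Finset.Icc 1 M, b (Om n) - mX X b| ≤ ε

/-- The outcome of the blocks A, B and F: independence on product functions, at almost all
scales. -/
def PSTAR : Prop :=
  ∀ ε : ℝ, 0 < ε → ∃ X0 : ℕ, ∀ X : ℕ, X0 ≤ X → ∀ a b : ℕ → ℝ,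
    (∀ m, |a m| ≤ 1) → (∀ m, |b m| ≤ 1) →
      ∑ M ∈ Finset.Icc 1 X, (1 / (M : ℝ)) *
        |(1 / (M : ℝ)) * ∑ n ∈ Finset.Icc 1 M, a (Om n) * b (Om (n + 1)) -
          mX X a * mX X b| ≤ ε * Real.log X

/-- The final theorem: for every bounded `F` (which may depend on `N`), the law of
`(Ω(n), Ω(n+1))` at the scale `M` is the product law, for almost all `M ≤ N`. -/
def GOAL2 : Prop :=
  ∀ ε : ℝ, 0 < ε → ∃ N0 : ℕ, ∀ N : ℕ, N0 ≤ N → ∀ F : (Fin 2 → ℕ) → ℝ, (∀ ℓ, |F ℓ| ≤ 1) →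
    ∑ M ∈ Finset.Icc 1 N, (1 / (M : ℝ)) *
      |(1 / (M : ℝ) * ∑ n ∈ Finset.Icc 1 M,
          F (fun i => ArithmeticFunction.cardFactors (n + i))) -
        1 / (M : ℝ) ^ 2 * ∑ m ∈ Fintype.piFinset (fun _ : Fin 2 => Finset.Icc 1 M),
          F (fun i => ArithmeticFunction.cardFactors (m i))| ≤ ε * Real.log N

end MRP
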