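import Mathlib
import Pool.Agent.Helper11.QR.Core

set_option autoImplicit false

/-! MRF-5: the window version of `core` (Helper11/QR/Core.lean).

Proof: as `core`, with the functions `F' M = F M` for `N / K < M ≤ N` and `F' M = 0` otherwise
(so `CutLe k M δ (F' M)` for all `M`, and `g M = |Em k M (F' M)|` vanishes for `M ≤ N / K`).
`windowIneq k hk (ε / 16)` gives `H, δ, N₀`; `N₁ = max N₀ H`. For fixed `d ≤ H`, the lemma
`core_inner` with `K := L`, `H * (L + 1) ≤ N < H * (L + 2)`, gives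
`∑_{N₁ ≤ M ≤ L} g M / (M + 1) ≤ ∑_{N₁ ≤ N' ≤ N} (1 / N') g (N' / d)`, and here the terms with
`N' ≤ N / K` vanish (`N' / d ≤ N' ≤ N / K`). Multiply by `1 / d`, sum over `d ∈ DD k H`, use the
window inequality for each `N' ∈ (N / K, N]`, `N' ≥ N₁`:
`LL * ∑_{N₁ ≤ M ≤ L} g M / (M + 1) ≤ (ε / 16) LL ∑_{N / K < N' ≤ N} 1 / N'` and the last sum is at
most `log (N / (N / K)) + 2 ≤ log K + 3` (for `N / K ≥ 1`: `N / (N / K) ≤ 2 K` in the sense that
`N < K (N / K + 1) ≤ 2 K (N / K)`; if `N / K = 0` then `K > N`, excluded by `K ≤ N`).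
The other `M`: `M ≤ N₁` contribute at most `N₁` and only finitely many constants appear:
`core_split` gives `∑_{M ≤ N} (1 / M) g M ≤ N₁ + 2 ∑ ... + 2 H`. Choose `K₀` with
`N₁ + 2 H + 1 ≤ (ε / 8) log K₀`. -/

namespace Helper11.QR

open Finset Helper13.Om

private lemma sum_Ioc_inv_le (a : ℕ) (ha : 1 ≤ a) (n : ℕ) (hn : a ≤ n) :
    ∑ M ∈ Finset.Ioc a n, (1 / (M : ℝ)) ≤ Real.log n - Real.log a := by
  induction n, hn using Nat.le_induction with
  | base => simp
  | succ n hn ih =>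
    have hn0 : (0 : ℝ) < n := by
      have : 0 < n := by omega
      exact_mod_cast this
    rw [Finset.sum_Ioc_succ_top (by omega)]
    have h1 : Real.log ((n : ℝ) / ((n : ℝ) + 1)) ≤ (n : ℝ) / ((n : ℝ) + 1) - 1 :=
      Real.log_le_sub_one_of_pos (by positivity)
    rw [Real.log_div hn0.ne' (by positivity)] at h1
    have h2 : (n : ℝ) / ((n : ℝ) + 1) - 1 = -(1 / ((n : ℝ) + 1)) := by
      field_simp
      ring
    rw [h2] at h1
    push_cast
    linarith

/-- harmonic sums over windows -/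
theorem harm_window (N K : ℕ) (hK : 1 ≤ K) (hKN : K ≤ N) :
    ∑ M ∈ Finset.Ioc (N / K) N, (1 / (M : ℝ)) ≤ Real.log K + 2 := by
  have ha : 1 ≤ N / K := (Nat.one_le_div_iff (by omega)).2 hKN
  have hle : N / K ≤ N := Nat.div_le_self _ _
  refine (sum_Ioc_inv_le (N / K) ha N hle).trans ?_
  have ha0 : (0 : ℝ) < ((N / K : ℕ) : ℝ) := by exact_mod_cast ha
  have hK0 : (0 : ℝ) < (K : ℝ) := by exact_mod_cast hK
  have hN0 : (0 : ℝ) < (N : ℝ) := by
    have : 0 < N := by omega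
    exact_mod_cast this
  have h1 : N ≤ K * (2 * (N / K)) := by
    have h2 : N < K * (N / K + 1) := Nat.lt_mul_div_succ N (by omega)
    have h3 : K * (N / K + 1) ≤ K * (2 * (N / K)) := Nat.mul_le_mul_left _ (by omega)
    omega
  have h4 : (N : ℝ) ≤ K * (2 * ((N / K : ℕ) : ℝ)) := by exact_mod_cast h1
  have h5 : Real.log N ≤ Real.log (K * (2 * ((N / K : ℕ) : ℝ))) := Real.log_le_log hN0 h4
  rw [Real.log_mul hK0.ne' (by positivity), Real.log_mul (by norm_num) ha0.ne'] at h5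
  have h6 : Real.log 2 ≤ 1 := by
    have := Real.log_le_sub_one_of_pos (show (0 : ℝ) < 2 by norm_num)
    linarith
  linarith

theorem coreW (k : ℕ) (hk : 1 ≤ k) (ε : ℝ) (hε : 0 < ε) :
    ∃ δ : ℝ, 0 < δ ∧ ∃ K₀ N₀ : ℕ, ∀ N K : ℕ, N₀ ≤ N → K₀ ≤ K → K ≤ N →
      ∀ F : ℕ → (Fin k → ℕ) → ℝ, (∀ M ℓ, |F M ℓ| ≤ 1) →
      (∀ M ∈ Finset.Ioc (N / K) N, CutLe k M δ (F M)) →
        ∑ M ∈ Finset.Ioc (N / K) N, (1 / (M : ℝ)) * |Em k M (F M)| ≤ ε * Real.log K := by
  classical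
  obtain ⟨H, hH, hLL, δ, hδ, N₀, hW⟩ := windowIneq k hk (ε / 16) (by positivity)
  set N₁ : ℕ := max N₀ H with hN₁
  have hN₁H : H ≤ N₁ := le_max_right _ _
  have hN₁1 : 1 ≤ N₁ := hH.trans hN₁H
  obtain ⟨K₁, hK₁, hK₁1⟩ : ∃ K₁ : ℕ, (2 / ε) * (N₁ + 2 * H + ε) ≤ Real.log K₁ ∧ 1 ≤ K₁ := by
    have h1 := (Real.tendsto_log_atTop.comp tendsto_natCast_atTop_atTop).eventually_ge_atTop
      ((2 / ε) * ((N₁ : ℝ) + 2 * H + ε))
    obtain ⟨n, hn⟩ := (h1.and (Filter.eventually_ge_atTop 1)).exists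
    exact ⟨n, hn.1, hn.2⟩
  refine ⟨δ, hδ, max K₁ (2 * H), 0, fun N K _ hK hKN F hF hcut => ?_⟩
  have hKK₁ : K₁ ≤ K := (le_max_left _ _).trans hK
  have hK2H : 2 * H ≤ K := (le_max_right _ _).trans hK
  have hK1 : 1 ≤ K := hK₁1.trans hKK₁
  have hN2H : 2 * H ≤ N := hK2H.trans hKN
  have hN1 : 1 ≤ N := hK1.trans hKN
  have hlog : Real.log K₁ ≤ Real.log K := by
    apply Real.log_le_log
    · exact_mod_cast hK₁1
    · exact_mod_cast hKK₁
  set F' : ℕ → (Fin k → ℕ) → ℝ := fun M ℓ => if M ∈ Finset.Ioc (N / K) N then F M ℓ else 0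
    with hF'def
  have hF' : ∀ M ℓ, |F' M ℓ| ≤ 1 := by
    intro M ℓ
    simp only [hF'def]
    split_ifs
    · exact hF M ℓ
    · simp
  have hF'0 : ∀ M, M ∉ Finset.Ioc (N / K) N → F' M = fun _ => 0 := by
    intro M hM
    funext ℓ
    simp only [hF'def]
    rw [if_neg hM]
  have hF'1 : ∀ M, M ∈ Finset.Ioc (N / K) N → F' M = F M := by
    intro M hM
    funext ℓ
    simp only [hF'def]
    rw [if_pos hM]
  have hcut' : ∀ M, CutLe k M δ (F' M) := by
    intro M
    by_cases hM : M ∈ Finset.Ioc (N / K) N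
    · rw [hF'1 M hM]
      exact hcut M hM
    · rw [hF'0 M hM]
      intro f hf
      have : Ep k M (fun ℓ => (fun _ : Fin k → ℕ => (0 : ℝ)) ℓ * ∏ i, f i (ℓ i)) = 0 := by
        unfold Ep
        simp
      rw [this, abs_zero]
      exact hδ.le
  set g : ℕ → ℝ := fun M => |Em k M (F' M)| with hgdef
  have hg : ∀ M, 0 ≤ g M := fun M => abs_nonneg _
  have hg1 : ∀ M, g M ≤ 1 := fun M => core_abs_Em_le k M (F' M) (hF' M)
  have hg0 : ∀ M, M ≤ N / K → g M = 0 := by
    intro M hM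
    have hM' : M ∉ Finset.Ioc (N / K) N := by
      rw [Finset.mem_Ioc]
      omega
    simp only [hgdef]
    rw [hF'0 M hM']
    unfold Em
    simp
  -- the largest scale of the averaged part
  obtain ⟨L, hL1, hL2⟩ : ∃ L : ℕ, H * (L + 1) ≤ N ∧ N < H * (L + 2) := by
    have hq : 1 ≤ N / H := by
      rw [Nat.one_le_div_iff (by omega)]
      omega
    refine ⟨N / H - 1, ?_, ?_⟩
    · rw [Nat.sub_add_cancel hq]
      exact Nat.mul_div_le N H
    · have : N / H - 1 + 2 = N / H + 1 := by omega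
      rw [this]
      exact Nat.lt_mul_div_succ N (by omega)
  have hmain : LL k H * ∑ M ∈ Finset.Icc N₁ L, g M / ((M : ℝ) + 1) ≤
      ε / 16 * LL k H * (Real.log K + 2) := by
    calc LL k H * ∑ M ∈ Finset.Icc N₁ L, g M / ((M : ℝ) + 1)
        = ∑ d ∈ DD k H, (1 / (d : ℝ)) * ∑ M ∈ Finset.Icc N₁ L, g M / ((M : ℝ) + 1) := by
          unfold LL
          rw [Finset.sum_mul]
      _ ≤ ∑ d ∈ DD k H, (1 / (d : ℝ)) *
            ∑ N' ∈ Finset.Icc N₁ N, (1 / (N' : ℝ)) * g (N' / d) := by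
          refine Finset.sum_le_sum fun d hd => ?_
          unfold DD at hd
          rw [Finset.mem_filter, Finset.mem_Icc] at hd
          exact mul_le_mul_of_nonneg_left
            (core_inner g hg H N L N₁ d hd.1.1 hd.1.2 hN₁1 hL1) (by positivity)
      _ = ∑ N' ∈ Finset.Icc N₁ N, (1 / (N' : ℝ)) *
            ∑ d ∈ DD k H, (1 / (d : ℝ)) * g (N' / d) := by
          simp_rw [Finset.mul_sum]
          rw [Finset.sum_comm]
          refine Finset.sum_congr rfl fun N' _ => Finset.sum_congr rfl fun d _ => ?_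
          ring
      _ ≤ ∑ N' ∈ Finset.Icc N₁ N,
            (if N' ∈ Finset.Ioc (N / K) N then (1 / (N' : ℝ)) * (ε / 16 * LL k H) else 0) := by
          refine Finset.sum_le_sum fun N' hN' => ?_
          rw [Finset.mem_Icc] at hN'
          by_cases hw : N' ∈ Finset.Ioc (N / K) N
          · rw [if_pos hw]
            refine mul_le_mul_of_nonneg_left ?_ (by positivity)
            exact hW N' ((le_max_left _ _).trans hN'.1) F' hF' fun d _ => hcut' _
          · rw [if_neg hw]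
            have hle : N' ≤ N / K := by
              rw [Finset.mem_Ioc] at hw
              omega
            have hz : ∑ d ∈ DD k H, (1 / (d : ℝ)) * g (N' / d) = 0 := by
              refine Finset.sum_eq_zero fun d _ => ?_
              rw [hg0 _ ((Nat.div_le_self _ _).trans hle), mul_zero]
            rw [hz, mul_zero]
      _ = ∑ N' ∈ (Finset.Icc N₁ N).filter (fun N' => N' ∈ Finset.Ioc (N / K) N),
            (1 / (N' : ℝ)) * (ε / 16 * LL k H) := by
          rw [Finset.sum_filter]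
      _ ≤ ∑ N' ∈ Finset.Ioc (N / K) N, (1 / (N' : ℝ)) * (ε / 16 * LL k H) := by
          refine Finset.sum_le_sum_of_subset_of_nonneg
            (fun x hx => (Finset.mem_filter.1 hx).2) fun n _ _ => by positivity
      _ = ε / 16 * LL k H * ∑ N' ∈ Finset.Ioc (N / K) N, (1 / (N' : ℝ)) := by
          rw [← Finset.sum_mul]
          ring
      _ ≤ ε / 16 * LL k H * (Real.log K + 2) :=
          mul_le_mul_of_nonneg_left (harm_window N K hK1 hKN) (by positivity)
  have hS : ∑ M ∈ Finset.Icc N₁ L, g M / ((M : ℝ) + 1) ≤ ε / 16 * (Real.log K + 2) := by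
    refine le_of_mul_le_mul_left ?_ hLL
    calc LL k H * ∑ M ∈ Finset.Icc N₁ L, g M / ((M : ℝ) + 1)
        ≤ ε / 16 * LL k H * (Real.log K + 2) := hmain
      _ = LL k H * (ε / 16 * (Real.log K + 2)) := by ring
  have hT := core_split g hg hg1 H N L N₁ hH hN₁1 hL2 hN1
  have hlogK : 0 ≤ Real.log K := Real.log_nonneg (by exact_mod_cast hK1)
  have h7 : (N₁ : ℝ) + 2 * H + ε ≤ ε / 2 * Real.log K := by
    have h8 := hK₁.trans hlog
    have h9 : ε / 2 * ((2 / ε) * ((N₁ : ℝ) + 2 * H + ε)) ≤ ε / 2 * Real.log K :=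
      mul_le_mul_of_nonneg_left h8 (by positivity)
    have h10 : ε / 2 * ((2 / ε) * ((N₁ : ℝ) + 2 * H + ε)) = (N₁ : ℝ) + 2 * H + ε := by
      field_simp
    rwa [h10] at h9
  have h11 : ∑ M ∈ Finset.Ioc (N / K) N, (1 / (M : ℝ)) * |Em k M (F M)| ≤
      ∑ M ∈ Finset.Icc 1 N, (1 / (M : ℝ)) * g M := by
    calc ∑ M ∈ Finset.Ioc (N / K) N, (1 / (M : ℝ)) * |Em k M (F M)|
        = ∑ M ∈ Finset.Ioc (N / K) N, (1 / (M : ℝ)) * g M := by
          refine Finset.sum_congr rfl fun M hM => ?_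
          simp only [hgdef]
          rw [hF'1 M hM]
      _ ≤ ∑ M ∈ Finset.Icc 1 N, (1 / (M : ℝ)) * g M := by
          refine Finset.sum_le_sum_of_subset_of_nonneg ?_ fun n _ _ =>
            mul_nonneg (by positivity) (hg _)
          intro x hx
          rw [Finset.mem_Ioc] at hx
          rw [Finset.mem_Icc]
          exact ⟨Nat.succ_le_of_lt (lt_of_le_of_lt (Nat.zero_le _) hx.1), hx.2⟩
  have h12 : 0 ≤ ε * Real.log K := by positivity
  refine h11.trans (hT.trans ?_)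
  nlinarith

end Helper11.QR
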