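import Mathlib
import Pool.Agent.Helper6.MR.Iface2
import Pool.Agent.Helper13.MRF.CoreW
import Pool.Agent.Helper11.QR.PartC
import Pool.Agent.Helper11.QR.PartU

set_option autoImplicit false

/-! MRF-6: `PSTARw` implies `GOALw`.

(a) `box_window`: for finite sets `A 0, A 1`, `PSTARw` with the indicator functions: the summand
is exactly `|Em 2 M (1_A) - Ep 2 M (1_A)|` (`Ep_box`, `Em_box` in Helper11/QR/PartU.lean,
`Fin.prod_univ_two`, `Fin.forall_fin_two`).
(b) `goalw`: let `δ₁, K₁, N₁` be given by `coreW 2 (ε / 16)`. `regBox 2 δ₁'` (`δ₁' = δ₁ / 2`; uniform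
`C`) at the scale `N` with `p = pL N`, `L = N + 3` (`pL_sum`): `F = G₀ + 2 G`,
`G₀ = ∑ j, c j * 1_{A j}`, `|G| ≤ 1`, `|EpL 2 N (G ∏ f)| ≤ δ₁ / 4`. By `cutLog 2 η τ` (`τ = δ₁ / 4`):
`|Ep 2 M (G ∏ f)| ≤ δ₁ / 2` for `log M ≥ η log N`. Put `G' M = G - Ep 2 M G` divided by `2`... (or
note `|Ep 2 M G| ≤ δ₁ / 2`, take `f = 1`), so that `|Em G - Ep G| ≤ |Em 2 M G| + δ₁ / 2`. For the
scales `M` of the window with `log M < η log N` use the trivial bound: they contribute at most
`2 (η log N + 1)`, and if there are such scales then `log (N / K) ≤ log M < η log N`, so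
`log K ≥ (1 - η) log N - log 2 ≥ (1/2) log N - 1`; to apply `coreW` put `F M = 0` at these scales
(`CutLe` trivial). In all cases `∑ (1/M) |Em G - Ep G| ≤ (ε/8) log K` for `η` small, `K ≥ K₀`.
(c) the boxes: (a) with `ε / (4 (C + 1))` for each of the at most `C` boxes, `|c j| ≤ 1`. -/

namespace MRP

open Finset Helper13.Om Helper11.QR

private lemma gw_mx_ind (M : ℕ) (A : Finset ℕ) :
    mx M (fun m => if m ∈ A then (1 : ℝ) else 0) = 1 / (M : ℝ) *
      (((Finset.Icc 1 M).filter (fun n => ArithmeticFunction.cardFactors n ∈ A)).card : ℝ) := by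
  unfold mx
  rw [Finset.card_filter]
  push_cast
  rw [div_eq_mul_one_div, mul_comm]

private lemma gw_box_term (M : ℕ) (A : Fin 2 → Finset ℕ) :
    Em 2 M (fun ℓ => if ∀ i, ℓ i ∈ A i then (1 : ℝ) else 0) -
      Ep 2 M (fun ℓ => if ∀ i, ℓ i ∈ A i then (1 : ℝ) else 0) =
    (∑ n ∈ Finset.Icc 1 M, (fun m => if m ∈ A 0 then (1 : ℝ) else 0) (Om n) *
      (fun m => if m ∈ A 1 then (1 : ℝ) else 0) (Om (n + 1))) / (M : ℝ) -
      mx M (fun m => if m ∈ A 0 then (1 : ℝ) else 0) *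
        mx M (fun m => if m ∈ A 1 then (1 : ℝ) else 0) := by
  rw [Ep_box, Fin.prod_univ_two, gw_mx_ind, gw_mx_ind]
  congr 1
  unfold Em
  rw [one_div_mul_eq_div]
  congr 1
  refine Finset.sum_congr rfl fun n _ => ?_
  have h0 : n + ((0 : Fin 2) : ℕ) = n := by simp
  have h1 : n + ((1 : Fin 2) : ℕ) = n + 1 := by simp
  have h2 : (∀ i : Fin 2, ArithmeticFunction.cardFactors (n + (i : ℕ)) ∈ A i) ↔
      (ArithmeticFunction.cardFactors n ∈ A 0 ∧
        ArithmeticFunction.cardFactors (n + 1) ∈ A 1) := by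
    rw [Fin.forall_fin_two, h0, h1]
  show (if ∀ i : Fin 2, ArithmeticFunction.cardFactors (n + (i : ℕ)) ∈ A i then (1 : ℝ) else 0) =
    (if ArithmeticFunction.cardFactors n ∈ A 0 then (1 : ℝ) else 0) *
      (if ArithmeticFunction.cardFactors (n + 1) ∈ A 1 then (1 : ℝ) else 0)
  by_cases ha : ArithmeticFunction.cardFactors n ∈ A 0
  · by_cases hb : ArithmeticFunction.cardFactors (n + 1) ∈ A 1
    · rw [if_pos (h2.2 ⟨ha, hb⟩), if_pos ha, if_pos hb, mul_one]
    · rw [if_neg (fun h => hb (h2.1 h).2), if_neg hb, mul_zero]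
  · rw [if_neg (fun h => ha (h2.1 h).1), if_neg ha, zero_mul]

theorem box_window (hP : PSTARw) (ε : ℝ) (hε : 0 < ε) : ∃ K0 N0 : ℕ, ∀ N K : ℕ, N0 ≤ N →
    K0 ≤ K → K ≤ N → ∀ A : Fin 2 → Finset ℕ,
      ∑ M ∈ Finset.Ioc (N / K) N, (1 / (M : ℝ)) *
        |Em 2 M (fun ℓ => if ∀ i, ℓ i ∈ A i then (1 : ℝ) else 0) -
          Ep 2 M (fun ℓ => if ∀ i, ℓ i ∈ A i then (1 : ℝ) else 0)| ≤ ε * Real.log K := by
  obtain ⟨K0, N0, h⟩ := hP ε hε
  refine ⟨K0, N0, fun N K hN hK hKN A => ?_⟩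
  have h1 := h N K hN hK hKN (fun m => if m ∈ A 0 then (1 : ℝ) else 0)
    (fun m => if m ∈ A 1 then (1 : ℝ) else 0)
    (fun m => by
      by_cases hm : m ∈ A 0
      · simp [hm]
      · simp [hm])
    (fun m => by
      by_cases hm : m ∈ A 1
      · simp [hm]
      · simp [hm])
  refine le_trans (le_of_eq ?_) h1
  refine Finset.sum_congr rfl fun M _ => ?_
  rw [gw_box_term]

private lemma gw_small (N : ℕ) (hN : 1 ≤ N) (η : ℝ) (hη : 0 < η) :
    ∑ M ∈ (Finset.Icc 1 N).filter (fun M : ℕ => ¬ η * Real.log N ≤ Real.log M), (1 / (M : ℝ)) ≤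
      1 + η * Real.log N := by
  have hlog : 0 ≤ Real.log N := Real.log_nonneg (by exact_mod_cast hN)
  set y : ℝ := Real.exp (η * Real.log N) with hy
  have hy1 : 1 ≤ y := Real.one_le_exp (mul_nonneg hη.le hlog)
  have h1 := harmonic_floor_le_one_add_log y hy1
  rw [harmonic_eq_sum_Icc, Rat.cast_sum] at h1
  simp only [Rat.cast_inv, Rat.cast_natCast] at h1
  rw [hy, Real.log_exp] at h1
  simp only [one_div]
  refine le_trans ?_ h1
  apply Finset.sum_le_sum_of_subset_of_nonneg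
  · intro M hM
    rw [Finset.mem_filter, Finset.mem_Icc, not_le] at hM
    rw [Finset.mem_Icc]
    refine ⟨hM.1.1, Nat.le_floor ?_⟩
    have hM0 : (0 : ℝ) < M := by exact_mod_cast hM.1.1
    have := (Real.log_lt_iff_lt_exp hM0).1 hM.2
    exact this.le
  · intro M _ _
    positivity

theorem goalw (hP : PSTARw) : GOALw := by
  classical
  intro ε hε
  obtain ⟨δ₁, hδ₁, Ka, Na, hcore⟩ := coreW 2 (by norm_num) (ε / 16) (by positivity)
  set τ : ℝ := min (δ₁ / 2) (ε / 32) with hτ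
  have hτ0 : 0 < τ := lt_min (by positivity) (by positivity)
  have hτ1 : τ ≤ δ₁ / 2 := min_le_left _ _
  have hτ2 : τ ≤ ε / 32 := min_le_right _ _
  set δ₂ : ℝ := min δ₁ (ε / 16) with hδ₂
  have hδ₂0 : 0 < δ₂ := lt_min hδ₁ (by positivity)
  have hδ₂1 : δ₂ ≤ δ₁ := min_le_left _ _
  have hδ₂2 : δ₂ ≤ ε / 16 := min_le_right _ _
  obtain ⟨C, hC⟩ := regBox 2 δ₂ hδ₂0
  set η : ℝ := min (ε / 64) (1 / 2) with hη
  have hη0 : 0 < η := lt_min (by positivity) (by norm_num)
  have hη1 : η ≤ ε / 64 := min_le_left _ _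
  have hη2 : η ≤ 1 / 2 := min_le_right _ _
  obtain ⟨Nb, hcut⟩ := cutLog 2 η τ hη0 hτ0
  obtain ⟨Kc, Nc, hbox⟩ := box_window hP (ε / (4 * (C + 1))) (by positivity)
  obtain ⟨Kd, hKd⟩ : ∃ Kd : ℕ, Real.exp (64 / ε + 2) ≤ Kd := exists_nat_ge _
  refine ⟨max (max Ka Kc) (max Kd 1), max (max Na Nb) (max Nc 1), ?_⟩
  intro N K hN hK hKN F hF
  have hNa : Na ≤ N := (le_max_left _ _).trans ((le_max_left _ _).trans hN)
  have hNb : Nb ≤ N := (le_max_right _ _).trans ((le_max_left _ _).trans hN)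
  have hNc : Nc ≤ N := (le_max_left _ _).trans ((le_max_right _ _).trans hN)
  have hN1 : 1 ≤ N := (le_max_right _ _).trans ((le_max_right _ _).trans hN)
  have hKa : Ka ≤ K := (le_max_left _ _).trans ((le_max_left _ _).trans hK)
  have hKc : Kc ≤ K := (le_max_right _ _).trans ((le_max_left _ _).trans hK)
  have hKd' : Kd ≤ K := (le_max_left _ _).trans ((le_max_right _ _).trans hK)
  have hK1 : 1 ≤ K := (le_max_right _ _).trans ((le_max_right _ _).trans hK)
  have hKr : (0 : ℝ) < K := by exact_mod_cast hK1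
  have hNr : (0 : ℝ) < N := by exact_mod_cast hN1
  have hlogK : 64 / ε + 2 ≤ Real.log K := by
    rw [Real.le_log_iff_exp_le hKr]
    exact hKd.trans (by exact_mod_cast hKd')
  have hlogK2 : 2 ≤ Real.log K := by
    have : 0 ≤ 64 / ε := by positivity
    linarith
  have hlogKε : 64 ≤ ε * Real.log K := by
    have h1 : 64 / ε ≤ Real.log K := by linarith
    rw [div_le_iff₀ hε] at h1
    linarith
  set W : Finset ℕ := Finset.Ioc (N / K) N with hW
  -- the summand
  have hsummand : ∀ M : ℕ, (1 / (M : ℝ) * ∑ n ∈ Finset.Icc 1 M,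
          F (fun i => ArithmeticFunction.cardFactors (n + i))) -
        1 / (M : ℝ) ^ 2 * ∑ m ∈ Fintype.piFinset (fun _ : Fin 2 => Finset.Icc 1 M),
          F (fun i => ArithmeticFunction.cardFactors (m i)) = Em 2 M F - Ep 2 M F :=
    fun M => rfl
  -- the decomposition
  obtain ⟨J, c, A, hJ, hc, hS, hcutF⟩ := hC (N + 2 + 1) (pL N) (pL_nonneg N)
    (pL_sum N (N + 2 + 1) hN1 (by omega)) F hF
  have hcutr0 : ∀ f : Fin 2 → ℕ → ℝ, (∀ i t, |f i t| ≤ 1) →
      |EpL 2 N (fun ℓ => (F ℓ - ∑ j, c j * (if ∀ i, ℓ i ∈ A j i then (1 : ℝ) else 0)) *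
        ∏ i, f i (ℓ i))| ≤ δ₂ := hcutF
  set S : (Fin 2 → ℕ) → ℝ := fun ℓ => ∑ j, c j * (if ∀ i, ℓ i ∈ A j i then (1 : ℝ) else 0)
    with hSdef
  set r : (Fin 2 → ℕ) → ℝ := fun ℓ => F ℓ - S ℓ with hr
  have hcutr : ∀ f : Fin 2 → ℕ → ℝ, (∀ i t, |f i t| ≤ 1) →
      |EpL 2 N (fun ℓ => r ℓ * ∏ i, f i (ℓ i))| ≤ δ₂ := hcutr0
  have hr2 : ∀ ℓ, |r ℓ| ≤ 2 := by
    intro ℓ
    have h1 : |S ℓ| ≤ 1 := hS ℓ
    have h2 := abs_sub (F ℓ) (S ℓ)
    have h3 := hF ℓ
    show |F ℓ - S ℓ| ≤ 2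
    linarith
  -- the cut norm of `r / 2` at large scales
  have hcutM : ∀ M : ℕ, M ≤ N → η * Real.log N ≤ Real.log M →
      ∀ f : Fin 2 → ℕ → ℝ, (∀ i t, |f i t| ≤ 1) →
        |Ep 2 M (fun ℓ => (1 / 2 * r ℓ) * ∏ i, f i (ℓ i))| ≤ τ + δ₂ / 2 := by
    intro M hMN hM f hf
    have hprod : ∀ ℓ : Fin 2 → ℕ, |∏ i, f i (ℓ i)| ≤ 1 := by
      intro ℓ
      rw [Finset.abs_prod]
      exact Finset.prod_le_one (fun i _ => abs_nonneg _) fun i _ => hf i (ℓ i)
    have h2 := hcut N hNb M hMN hM (fun ℓ => 1 / 2 * r ℓ * ∏ i, f i (ℓ i)) (fun ℓ => by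
      rw [abs_mul, abs_mul, abs_of_pos (by norm_num : (0 : ℝ) < 1 / 2)]
      have h3 := hr2 ℓ
      have h4 := hprod ℓ
      have h5 := abs_nonneg (r ℓ)
      have h6 := abs_nonneg (∏ i, f i (ℓ i))
      nlinarith)
    have h3 : EpL 2 N (fun ℓ => 1 / 2 * r ℓ * ∏ i, f i (ℓ i)) =
        1 / 2 * EpL 2 N (fun ℓ => r ℓ * ∏ i, f i (ℓ i)) := by
      unfold EpL
      rw [Finset.mul_sum]
      refine Finset.sum_congr rfl fun ℓ _ => ?_
      ring
    rw [h3] at h2
    have h4 := hcutr f hf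
    have h5 := abs_le.1 h2
    have h6 := abs_le.1 h4
    rw [abs_le]
    constructor <;> linarith [h5.1, h5.2, h6.1, h6.2]
  have hEp : ∀ M : ℕ, M ≤ N → η * Real.log N ≤ Real.log M → |Ep 2 M r| ≤ ε / 8 := by
    intro M hMN hM
    have h1 := hcutM M hMN hM (fun _ _ => 1) (fun _ _ => by simp)
    have h2 : (fun ℓ : Fin 2 → ℕ => (1 / 2 * r ℓ) *
        ∏ i : Fin 2, (fun (_ : Fin 2) (_ : ℕ) => (1 : ℝ)) i (ℓ i)) = fun ℓ => 1 / 2 * r ℓ := by
      funext ℓ
      rw [Finset.prod_const_one, mul_one]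
    rw [h2, Ep_smul', abs_mul, abs_of_pos (by norm_num : (0 : ℝ) < 1 / 2)] at h1
    linarith
  -- (i) the box part
  have hboxS : ∑ M ∈ W, (1 / (M : ℝ)) * |Em 2 M S - Ep 2 M S| ≤ ε / 4 * Real.log K := by
    have h1 : ∀ M ∈ W, (1 / (M : ℝ)) * |Em 2 M S - Ep 2 M S| ≤ ∑ j, (1 / (M : ℝ)) *
        |Em 2 M (fun ℓ => if ∀ i, ℓ i ∈ A j i then (1 : ℝ) else 0) -
          Ep 2 M (fun ℓ => if ∀ i, ℓ i ∈ A j i then (1 : ℝ) else 0)| := by
      intro M _
      rw [← Finset.mul_sum]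
      refine mul_le_mul_of_nonneg_left ?_ (by positivity)
      rw [hSdef, Em_fsum 2 M J (fun j ℓ => c j * (if ∀ i, ℓ i ∈ A j i then (1 : ℝ) else 0)),
        Ep_fsum 2 M J (fun j ℓ => c j * (if ∀ i, ℓ i ∈ A j i then (1 : ℝ) else 0)),
        ← Finset.sum_sub_distrib]
      refine (Finset.abs_sum_le_sum_abs _ _).trans ?_
      refine Finset.sum_le_sum fun j _ => ?_
      rw [Em_smul', Ep_smul', ← mul_sub, abs_mul]
      have h3 := mul_le_mul_of_nonneg_right (hc j) (abs_nonneg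
        (Em 2 M (fun ℓ => if ∀ i, ℓ i ∈ A j i then (1 : ℝ) else 0) -
          Ep 2 M (fun ℓ => if ∀ i, ℓ i ∈ A j i then (1 : ℝ) else 0)))
      rw [one_mul] at h3
      exact h3
    refine (Finset.sum_le_sum h1).trans ?_
    rw [Finset.sum_comm]
    have h2 : ∀ j ∈ (Finset.univ : Finset (Fin J)), ∑ M ∈ W, (1 / (M : ℝ)) *
        |Em 2 M (fun ℓ => if ∀ i, ℓ i ∈ A j i then (1 : ℝ) else 0) -
          Ep 2 M (fun ℓ => if ∀ i, ℓ i ∈ A j i then (1 : ℝ) else 0)| ≤
        ε / (4 * (C + 1)) * Real.log K := fun j _ => hbox N K hNc hKc hKN (A j)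
    refine (Finset.sum_le_sum h2).trans ?_
    rw [Finset.sum_const, Finset.card_univ, Fintype.card_fin, nsmul_eq_mul]
    have h3 : (J : ℝ) ≤ C + 1 := by
      have : (J : ℝ) ≤ C := by exact_mod_cast hJ
      linarith
    have h4 : 0 ≤ ε / (4 * ((C : ℝ) + 1)) * Real.log K := by positivity
    calc (J : ℝ) * (ε / (4 * ((C : ℝ) + 1)) * Real.log K) ≤
        ((C : ℝ) + 1) * (ε / (4 * ((C : ℝ) + 1)) * Real.log K) :=
          mul_le_mul_of_nonneg_right h3 h4
      _ = ε / 4 * Real.log K := by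
          field_simp
  -- (ii) the remainder, large scales
  have hrem : ∑ M ∈ W.filter (fun M : ℕ => η * Real.log N ≤ Real.log M),
      (1 / (M : ℝ)) * |Em 2 M r| ≤ ε / 8 * Real.log K := by
    have h1 := hcore N K hNa hKa hKN (fun M ℓ => if η * Real.log N ≤ Real.log M then
      1 / 2 * r ℓ else 0) (fun M ℓ => by
        by_cases h : η * Real.log N ≤ Real.log M
        · simp only [if_pos h]
          rw [abs_mul, abs_of_pos (by norm_num : (0 : ℝ) < 1 / 2)]
          linarith [hr2 ℓ]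
        · simp only [if_neg h]
          rw [abs_zero]
          exact zero_le_one) (fun M hM => by
        intro f hf
        by_cases h : η * Real.log N ≤ Real.log M
        · simp only [if_pos h]
          have h2 := hcutM M (Finset.mem_Ioc.1 hM).2 h f hf
          linarith
        · simp only [if_neg h]
          have h0 : Ep 2 M (fun ℓ => 0 * ∏ i, f i (ℓ i)) = 0 := by
            unfold Ep
            simp
          rw [h0, abs_zero]
          exact hδ₁.le)
    have h2 : ∑ M ∈ W.filter (fun M : ℕ => η * Real.log N ≤ Real.log M),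
          (1 / (M : ℝ)) * (1 / 2 * |Em 2 M r|) ≤ ε / 16 * Real.log K := by
      refine le_trans ?_ h1
      rw [Finset.sum_filter]
      refine Finset.sum_le_sum fun M _ => ?_
      by_cases h : η * Real.log N ≤ Real.log M
      · simp only [if_pos h]
        rw [Em_smul', abs_mul, abs_of_pos (by norm_num : (0 : ℝ) < 1 / 2)]
      · simp only [if_neg h]
        positivity
    have h3 : ∑ M ∈ W.filter (fun M : ℕ => η * Real.log N ≤ Real.log M),
          (1 / (M : ℝ)) * (1 / 2 * |Em 2 M r|) = 1 / 2 * ∑ M ∈ W.filter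
      (fun M : ℕ => η * Real.log N ≤ Real.log M), (1 / (M : ℝ)) * |Em 2 M r| := by
      rw [Finset.mul_sum]
      refine Finset.sum_congr rfl fun M _ => ?_
      ring
    rw [h3] at h2
    linarith
  have hremp : ∑ M ∈ W.filter (fun M : ℕ => η * Real.log N ≤ Real.log M),
      (1 / (M : ℝ)) * |Ep 2 M r| ≤ ε / 8 * (Real.log K + 2) := by
    have h1 := harm_window N K hK1 hKN
    calc ∑ M ∈ W.filter (fun M : ℕ => η * Real.log N ≤ Real.log M), (1 / (M : ℝ)) * |Ep 2 M r|
        ≤ ∑ M ∈ W.filter (fun M : ℕ => η * Real.log N ≤ Real.log M), (1 / (M : ℝ)) * (ε / 8) := by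
          refine Finset.sum_le_sum fun M hM => ?_
          rw [Finset.mem_filter] at hM
          exact mul_le_mul_of_nonneg_left (hEp M (Finset.mem_Ioc.1 hM.1).2 hM.2) (by positivity)
      _ ≤ ∑ M ∈ W, (1 / (M : ℝ)) * (ε / 8) := by
          apply Finset.sum_le_sum_of_subset_of_nonneg (Finset.filter_subset _ _)
          intro M _ _
          positivity
      _ = ε / 8 * ∑ M ∈ W, (1 / (M : ℝ)) := by
          rw [← Finset.sum_mul, mul_comm]
      _ ≤ ε / 8 * (Real.log K + 2) := mul_le_mul_of_nonneg_left h1 (by positivity)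
  -- (iii) the small scales
  have hsmall : ∑ M ∈ W.filter (fun M : ℕ => ¬ η * Real.log N ≤ Real.log M),
      (1 / (M : ℝ)) * |Em 2 M F - Ep 2 M F| ≤ 2 + ε / 16 * Real.log K := by
    have htriv : ∀ M ∈ W, |Em 2 M F - Ep 2 M F| ≤ 2 := by
      intro M hM
      have hM1 : 1 ≤ M := by
        have := (Finset.mem_Ioc.1 hM).1
        exact Nat.succ_le_of_lt (lt_of_le_of_lt (Nat.zero_le _) this)
      have h2 := Em_abs_le_of 2 M F hF
      have h3 := Ep_abs_le_of 2 M F hM1 hF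
      have := abs_sub (Em 2 M F) (Ep 2 M F)
      linarith
    rcases Finset.eq_empty_or_nonempty
      (W.filter (fun M : ℕ => ¬ η * Real.log N ≤ Real.log M)) with hemp | ⟨M0, hM0⟩
    · rw [hemp, Finset.sum_empty]
      positivity
    · rw [Finset.mem_filter, not_le] at hM0
      have hM0W := Finset.mem_Ioc.1 hM0.1
      have hM0pos : (0 : ℝ) < M0 := by
        have : 0 < M0 := lt_of_le_of_lt (Nat.zero_le _) hM0W.1
        exact_mod_cast this
      have h1 : (N : ℝ) < M0 * K := by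
        have := (Nat.div_lt_iff_lt_mul hK1).1 hM0W.1
        exact_mod_cast this
      have h2 : Real.log N ≤ Real.log M0 + Real.log K := by
        rw [← Real.log_mul hM0pos.ne' hKr.ne']
        exact Real.log_le_log hNr h1.le
      have hlogN : 0 ≤ Real.log N := Real.log_nonneg (by exact_mod_cast hN1)
      have h3 : Real.log N ≤ 2 * Real.log K := by
        have h4 : η * Real.log N ≤ 1 / 2 * Real.log N := mul_le_mul_of_nonneg_right hη2 hlogN
        linarith [hM0.2]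
      calc ∑ M ∈ W.filter (fun M : ℕ => ¬ η * Real.log N ≤ Real.log M),
            (1 / (M : ℝ)) * |Em 2 M F - Ep 2 M F|
          ≤ ∑ M ∈ W.filter (fun M : ℕ => ¬ η * Real.log N ≤ Real.log M), (1 / (M : ℝ)) * 2 := by
            refine Finset.sum_le_sum fun M hM => ?_
            exact mul_le_mul_of_nonneg_left (htriv M (Finset.mem_filter.1 hM).1) (by positivity)
        _ ≤ ∑ M ∈ (Finset.Icc 1 N).filter (fun M : ℕ => ¬ η * Real.log N ≤ Real.log M),
            (1 / (M : ℝ)) * 2 := by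
            apply Finset.sum_le_sum_of_subset_of_nonneg
            · intro M hM
              rw [Finset.mem_filter] at hM ⊢
              have h5 := Finset.mem_Ioc.1 hM.1
              refine ⟨Finset.mem_Icc.2 ⟨?_, h5.2⟩, hM.2⟩
              exact Nat.succ_le_of_lt (lt_of_le_of_lt (Nat.zero_le _) h5.1)
            · intro M _ _
              positivity
        _ = 2 * ∑ M ∈ (Finset.Icc 1 N).filter (fun M : ℕ => ¬ η * Real.log N ≤ Real.log M),
            (1 / (M : ℝ)) := by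
            rw [← Finset.sum_mul, mul_comm]
        _ ≤ 2 * (1 + η * Real.log N) :=
            mul_le_mul_of_nonneg_left (gw_small N hN1 η hη0) (by norm_num)
        _ ≤ 2 + ε / 16 * Real.log K := by
            have h6 : η * Real.log N ≤ ε / 64 * (2 * Real.log K) :=
              mul_le_mul hη1 h3 hlogN (by positivity)
            linarith
  -- assembly
  have hlargeF : ∑ M ∈ W.filter (fun M : ℕ => η * Real.log N ≤ Real.log M),
      (1 / (M : ℝ)) * |Em 2 M F - Ep 2 M F| ≤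
      ε / 4 * Real.log K + ε / 8 * Real.log K + ε / 8 * (Real.log K + 2) := by
    have h1 : ∀ M : ℕ, |Em 2 M F - Ep 2 M F| ≤ |Em 2 M S - Ep 2 M S| + |Em 2 M r| +
        |Ep 2 M r| := by
      intro M
      have e1 : Em 2 M r = Em 2 M F - Em 2 M S := Em_sub' 2 M F S
      have e2 : Ep 2 M r = Ep 2 M F - Ep 2 M S := Ep_sub' 2 M F S
      have e3 : Em 2 M F - Ep 2 M F = (Em 2 M S - Ep 2 M S) + Em 2 M r - Ep 2 M r := by
        rw [e1, e2]
        ring
      rw [e3]
      have h2 := abs_sub ((Em 2 M S - Ep 2 M S) + Em 2 M r) (Ep 2 M r)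
      have h3 := abs_add_le (Em 2 M S - Ep 2 M S) (Em 2 M r)
      linarith
    calc ∑ M ∈ W.filter (fun M : ℕ => η * Real.log N ≤ Real.log M),
          (1 / (M : ℝ)) * |Em 2 M F - Ep 2 M F|
        ≤ ∑ M ∈ W.filter (fun M : ℕ => η * Real.log N ≤ Real.log M),
          ((1 / (M : ℝ)) * |Em 2 M S - Ep 2 M S| + (1 / (M : ℝ)) * |Em 2 M r| +
            (1 / (M : ℝ)) * |Ep 2 M r|) := by
          refine Finset.sum_le_sum fun M _ => ?_
          rw [← mul_add, ← mul_add]
          exact mul_le_mul_of_nonneg_left (h1 M) (by positivity)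
      _ = ∑ M ∈ W.filter (fun M : ℕ => η * Real.log N ≤ Real.log M),
            (1 / (M : ℝ)) * |Em 2 M S - Ep 2 M S| +
          ∑ M ∈ W.filter (fun M : ℕ => η * Real.log N ≤ Real.log M),
            (1 / (M : ℝ)) * |Em 2 M r| +
          ∑ M ∈ W.filter (fun M : ℕ => η * Real.log N ≤ Real.log M),
            (1 / (M : ℝ)) * |Ep 2 M r| := by
          rw [Finset.sum_add_distrib, Finset.sum_add_distrib]
      _ ≤ ε / 4 * Real.log K + ε / 8 * Real.log K + ε / 8 * (Real.log K + 2) := by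
          refine add_le_add (add_le_add ?_ hrem) hremp
          refine le_trans ?_ hboxS
          apply Finset.sum_le_sum_of_subset_of_nonneg (Finset.filter_subset _ _)
          intro M _ _
          positivity
  have hfinal : ∑ M ∈ W, (1 / (M : ℝ)) * |Em 2 M F - Ep 2 M F| ≤ ε * Real.log K := by
    rw [← Finset.sum_filter_add_sum_filter_not W (fun M : ℕ => η * Real.log N ≤ Real.log M)]
    have h1 := add_le_add hlargeF hsmall
    refine h1.trans ?_
    nlinarith
  exact hfinal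

end MRP
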