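import Mathlib
import Pool.Agent.Helper13.MRF.Iface2
import Pool.Agent.Helper11.QR.LogMean

set_option autoImplicit false

/-! MRF-1: `LAW0` and `LAW1`.

`law0`: `lawLog ε ε` at `N := X` (with `M ≥ X ^ ε`, i.e. `ε * log X ≤ log M`; `abs_sub_comm`).
`law1`: `lawLog 1 (ε / 3)` at `N := X`, `M := X`, applied to `b` and to `up 1 b`, and
`shiftInv_eventually (ε / 3)` (Helper13/Om/Noise.lean, `Bv_nat`).
`law0s`: the same as `law0` for `up s b`, `s ≤ S`: `law0` and `law1` iterated `s` times. -/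

namespace MRP

open Finset Helper13.Om Helper11.QR

theorem law0_LS_pos {X : ℕ} (hX : 1 ≤ X) : 0 < LS X := by
  unfold LS
  refine Finset.sum_pos (fun n hn => ?_) ⟨1, Finset.mem_Icc.2 ⟨le_refl _, hX⟩⟩
  have : (0 : ℝ) < (n : ℝ) := by
    have := (Finset.mem_Icc.1 hn).1
    exact_mod_cast this
  positivity

theorem law0_mX_le {X : ℕ} (hX : 1 ≤ X) (b : ℕ → ℝ) (hb : ∀ m, |b m| ≤ 1) : |mX X b| ≤ 1 := by
  have h := law0_LS_pos hX
  unfold mX
  rw [abs_div, abs_of_pos h, div_le_one h]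
  refine (Finset.abs_sum_le_sum_abs _ _).trans ?_
  unfold LS
  refine Finset.sum_le_sum fun n _ => ?_
  rw [abs_mul, abs_of_nonneg (by positivity : (0 : ℝ) ≤ 1 / (n : ℝ))]
  calc 1 / (n : ℝ) * |b (Om n)| ≤ 1 / (n : ℝ) * 1 :=
        mul_le_mul_of_nonneg_left (hb _) (by positivity)
    _ = 1 / (n : ℝ) := mul_one _

theorem law0 : LAW0 := by
  intro ε hε
  obtain ⟨N₀, h⟩ := lawLog ε ε hε hε
  refine ⟨max N₀ 1, fun X hX M hM hMX b hb => ?_⟩
  have hX1 : 1 ≤ X := (le_max_right _ _).trans hX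
  have hX0 : (0 : ℝ) < X := by exact_mod_cast hX1
  have hlog : ε * Real.log X ≤ Real.log M := by
    rw [← Real.log_rpow hX0]
    exact Real.log_le_log (Real.rpow_pos_of_pos hX0 _) hM
  have h1 := h X ((le_max_left _ _).trans hX) M hMX hlog b hb
  rw [abs_sub_comm]
  exact h1

/-- The mean at the top scale. -/
theorem law0_top (ε : ℝ) (hε : 0 < ε) : ∃ X0 : ℕ, 1 ≤ X0 ∧ ∀ X : ℕ, X0 ≤ X →
    ∀ b : ℕ → ℝ, (∀ m, |b m| ≤ 1) →
      |(1 / (X : ℝ)) * ∑ n ∈ Finset.Icc 1 X, b (Om n) - mX X b| ≤ ε := by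
  obtain ⟨N₀, h⟩ := lawLog 1 ε one_pos hε
  refine ⟨max N₀ 1, le_max_right _ _, fun X hX b hb => ?_⟩
  have h1 := h X ((le_max_left _ _).trans hX) X le_rfl (by rw [one_mul]) b hb
  rw [abs_sub_comm]
  exact h1

theorem law1 : LAW1 := by
  intro ε hε
  obtain ⟨X1, _, h1⟩ := law0_top (ε / 3) (by positivity)
  obtain ⟨X2, h2⟩ := shiftInv_eventually (ε / 3) (by positivity)
  refine ⟨max X1 X2, fun X hX b hb => ?_⟩
  have ha := h1 X ((le_max_left _ _).trans hX) b hb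
  have hb' := h1 X ((le_max_left _ _).trans hX) (up 1 b) (fun m => hb _)
  have hc := h2 X ((le_max_right _ _).trans hX) b hb
  rw [Bv_nat, Bv_nat] at hc
  have hd : (1 / (X : ℝ)) * ∑ n ∈ Finset.Icc 1 X, (up 1 b) (Om n) =
      1 / (X : ℝ) * ∑ n ∈ Finset.Icc 1 X,
        (fun ℓ => b (ℓ + 1)) (ArithmeticFunction.cardFactors n) := rfl
  rw [hd] at hb'
  have ha' : |(1 / (X : ℝ)) * ∑ n ∈ Finset.Icc 1 X, b (ArithmeticFunction.cardFactors n) -
      mX X b| ≤ ε / 3 := ha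
  rw [abs_le] at ha' hb' hc ⊢
  constructor <;> linarith [ha'.1, ha'.2, hb'.1, hb'.2, hc.1, hc.2]

/-- Shifts by bounded amounts. -/
theorem law1s (S : ℕ) (ε : ℝ) (hε : 0 < ε) : ∃ X0 : ℕ, ∀ X : ℕ, X0 ≤ X → ∀ s ≤ S,
    ∀ b : ℕ → ℝ, (∀ m, |b m| ≤ 1) → |mX X (up s b) - mX X b| ≤ ε := by
  have hS : (0 : ℝ) < (S : ℝ) + 1 := by positivity
  obtain ⟨X0, h⟩ := law1 (ε / ((S : ℝ) + 1)) (by positivity)
  refine ⟨X0, fun X hX s hs b hb => ?_⟩
  have key : ∀ s : ℕ, |mX X (up s b) - mX X b| ≤ s * (ε / ((S : ℝ) + 1)) := by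
    intro s
    induction s with
    | zero =>
      have : up 0 b = b := rfl
      rw [this]
      simp
    | succ s ih =>
      have h1 := h X hX (up s b) (fun m => hb _)
      have e : up 1 (up s b) = up (s + 1) b := by
        funext m
        change b (m + 1 + s) = b (m + (s + 1))
        congr 1
        omega
      rw [e] at h1
      have e2 : mX X (up (s + 1) b) - mX X b =
          (mX X (up (s + 1) b) - mX X (up s b)) + (mX X (up s b) - mX X b) := by ring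
      rw [e2]
      refine (abs_add_le _ _).trans ?_
      push_cast
      linarith
  refine (key s).trans ?_
  have hs' : (s : ℝ) ≤ (S : ℝ) + 1 := by
    have : (s : ℝ) ≤ S := by exact_mod_cast hs
    linarith
  calc (s : ℝ) * (ε / ((S : ℝ) + 1)) ≤ ((S : ℝ) + 1) * (ε / ((S : ℝ) + 1)) :=
        mul_le_mul_of_nonneg_right hs' (by positivity)
    _ = ε := by field_simp

theorem law0s_aux (S : ℕ) (ε : ℝ) (hε : 0 < ε) (hεle : ε ≤ 1) : ∃ X0 : ℕ, 1 ≤ X0 ∧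
    ∀ X : ℕ, X0 ≤ X → ∀ s ≤ S,
    ∀ y : ℝ, (X : ℝ) ^ ε ≤ y → y ≤ 2 * X → ∀ b : ℕ → ℝ, (∀ m, |b m| ≤ 1) →
      |(∑ n ∈ Finset.Icc 1 ⌊y⌋₊, b (Om n + s)) - y * mX X b| ≤ ε * y := by
  set ε1 : ℝ := ε / 8 with hε1
  have hε10 : 0 < ε1 := by positivity
  obtain ⟨X1, h1⟩ := law0 ε1 hε10
  obtain ⟨X2, hX2, h2⟩ := law0_top ε1 hε10
  obtain ⟨X3, h3⟩ := law1s S ε1 hε10
  -- comparison of the logarithmic means at `2 * X` and `X`
  obtain ⟨X5, h5⟩ : ∃ X5 : ℕ, ∀ X : ℕ, X5 ≤ X → 4 ≤ (X : ℝ) ^ (ε / 4) ∧ 8 / ε ≤ (X : ℝ) ^ ε ∧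
      ((2 * X : ℕ) : ℝ) ^ ε1 ≤ (X : ℝ) ^ (ε / 4) ∧ (X : ℝ) ^ (ε / 4) ≤ X := by
    have t1 : Filter.Tendsto (fun X : ℕ => (X : ℝ) ^ (ε / 4)) Filter.atTop Filter.atTop :=
      (tendsto_rpow_atTop (by positivity : 0 < ε / 4)).comp tendsto_natCast_atTop_atTop
    have t2 : Filter.Tendsto (fun X : ℕ => (X : ℝ) ^ ε) Filter.atTop Filter.atTop :=
      (tendsto_rpow_atTop hε).comp tendsto_natCast_atTop_atTop
    have t3 : Filter.Tendsto (fun X : ℕ => (X : ℝ)) Filter.atTop Filter.atTop :=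
      tendsto_natCast_atTop_atTop
    have ev := (t1.eventually_ge_atTop 4).and ((t2.eventually_ge_atTop (8 / ε)).and
      (t3.eventually_ge_atTop 2))
    obtain ⟨X5, hX5⟩ := Filter.eventually_atTop.1 ev
    refine ⟨X5, fun X hX => ?_⟩
    obtain ⟨ha, hb, hc⟩ := hX5 X hX
    have hX0 : (0 : ℝ) < X := by linarith
    have hsq : ((2 * X : ℕ) : ℝ) ≤ (X : ℝ) ^ (2 : ℝ) := by
      rw [Real.rpow_two]
      push_cast
      nlinarith
    have hpow : ((2 * X : ℕ) : ℝ) ^ ε1 ≤ (X : ℝ) ^ (2 * ε1) := by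
      calc ((2 * X : ℕ) : ℝ) ^ ε1 ≤ ((X : ℝ) ^ (2 : ℝ)) ^ ε1 :=
            Real.rpow_le_rpow (by positivity) hsq hε10.le
        _ = (X : ℝ) ^ (2 * ε1) := by rw [← Real.rpow_mul hX0.le]
    refine ⟨ha, hb, ?_, ?_⟩
    · have : 2 * ε1 = ε / 4 := by rw [hε1]; ring
      rw [← this]
      exact hpow
    · calc (X : ℝ) ^ (ε / 4) ≤ (X : ℝ) ^ (1 : ℝ) :=
          Real.rpow_le_rpow_of_exponent_le (by linarith) (by linarith)
        _ = X := Real.rpow_one _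
  refine ⟨max (max X1 X2) (max X3 X5), ?_, ?_⟩
  · exact hX2.trans ((le_max_right _ _).trans (le_max_left _ _))
  intro X hX s hs y hy1 hy2 b hb
  have hXX1 : X1 ≤ X := (le_max_left _ _).trans ((le_max_left _ _).trans hX)
  have hXX2 : X2 ≤ X := (le_max_right _ _).trans ((le_max_left _ _).trans hX)
  have hXX3 : X3 ≤ X := (le_max_left _ _).trans ((le_max_right _ _).trans hX)
  have hXX5 : X5 ≤ X := (le_max_right _ _).trans ((le_max_right _ _).trans hX)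
  have hX1 : 1 ≤ X := hX2.trans hXX2
  have hX0 : (0 : ℝ) < X := by exact_mod_cast hX1
  have hX1' : (1 : ℝ) ≤ X := by exact_mod_cast hX1
  obtain ⟨c1, c2, c3, c4⟩ := h5 X hXX5
  set M : ℕ := ⌊y⌋₊ with hM
  have hy0 : 0 < y := lt_of_lt_of_le (Real.rpow_pos_of_pos hX0 _) hy1
  have hMy : (M : ℝ) ≤ y := Nat.floor_le hy0.le
  have hyM : y < M + 1 := Nat.lt_floor_add_one _
  have hM2X : M ≤ 2 * X := by
    have : (M : ℝ) ≤ ((2 * X : ℕ) : ℝ) := by push_cast; linarith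
    exact_mod_cast this
  have hlarge : ((2 * X : ℕ) : ℝ) ^ ε1 ≤ M := by
    have e1 : (X : ℝ) ^ (ε / 4) * (X : ℝ) ^ (ε / 4) ≤ (X : ℝ) ^ ε := by
      rw [← Real.rpow_add hX0]
      exact Real.rpow_le_rpow_of_exponent_le hX1' (by linarith)
    nlinarith
  have hM0 : (0 : ℝ) < M := by
    refine lt_of_lt_of_le (Real.rpow_pos_of_pos ?_ _) hlarge
    push_cast
    linarith
  -- the five comparisons
  have k1 := h1 (2 * X) (by omega) M hlarge hM2X (up s b) (fun m => hb _)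
  have k2 := h1 (2 * X) (by omega) X (c3.trans c4) (by omega) (up s b) (fun m => hb _)
  have k3 := h2 X hXX2 (up s b) (fun m => hb _)
  have k4 := h3 X hXX3 s hs b hb
  have k5 := law0_mX_le hX1 b hb
  have k6 : ε * y ≥ 8 := by
    have : ε * (8 / ε) ≤ ε * y := mul_le_mul_of_nonneg_left (c2.trans hy1) hε.le
    have e : ε * (8 / ε) = 8 := by field_simp
    linarith
  have e0 : (∑ n ∈ Finset.Icc 1 M, b (Om n + s)) =
      M * ((1 / (M : ℝ)) * ∑ n ∈ Finset.Icc 1 M, (up s b) (Om n)) := by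
    have : ∑ n ∈ Finset.Icc 1 M, (up s b) (Om n) = ∑ n ∈ Finset.Icc 1 M, b (Om n + s) := rfl
    rw [this]
    field_simp
  have k7 : |(1 / (M : ℝ)) * ∑ n ∈ Finset.Icc 1 M, (up s b) (Om n) - mX X b| ≤ 4 * ε1 := by
    rw [abs_le] at k1 k2 k3 k4 ⊢
    constructor <;> linarith [k1.1, k1.2, k2.1, k2.2, k3.1, k3.2, k4.1, k4.2]
  rw [e0]
  have e3 : (M : ℝ) * ((1 / (M : ℝ)) * ∑ n ∈ Finset.Icc 1 M, (up s b) (Om n)) - y * mX X b =
      M * ((1 / (M : ℝ)) * ∑ n ∈ Finset.Icc 1 M, (up s b) (Om n) - mX X b) -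
        (y - M) * mX X b := by ring
  rw [e3]
  refine (abs_sub _ _).trans ?_
  rw [abs_mul, abs_mul, abs_of_pos hM0, abs_of_nonneg (by linarith : 0 ≤ y - M)]
  have m1 : (M : ℝ) * |(1 / (M : ℝ)) * ∑ n ∈ Finset.Icc 1 M, (up s b) (Om n) - mX X b| ≤
      y * (4 * ε1) := mul_le_mul hMy k7 (abs_nonneg _) hy0.le
  have m2 : (y - M) * |mX X b| ≤ 1 := by
    have : (y - M) * |mX X b| ≤ 1 * 1 :=
      mul_le_mul (by linarith) k5 (abs_nonneg _) zero_le_one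
    linarith
  have e4 : y * (4 * ε1) = ε * y / 2 := by rw [hε1]; ring
  linarith

/-- The law at real scales between `X ^ ε` and `2 * X`, all shifts `s ≤ S`. -/
theorem law0s (S : ℕ) (ε : ℝ) (hε : 0 < ε) : ∃ X0 : ℕ, ∀ X : ℕ, X0 ≤ X → ∀ s ≤ S,
    ∀ y : ℝ, (X : ℝ) ^ ε ≤ y → y ≤ 2 * X → ∀ b : ℕ → ℝ, (∀ m, |b m| ≤ 1) →
      |(∑ n ∈ Finset.Icc 1 ⌊y⌋₊, b (Om n + s)) - y * mX X b| ≤ ε * y := by
  obtain ⟨X0, hX0, h⟩ := law0s_aux S (min ε 1) (lt_min hε one_pos) (min_le_right _ _)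
  refine ⟨X0, fun X hX s hs y hy1 hy2 b hb => ?_⟩
  have hX1 : (1 : ℝ) ≤ X := by exact_mod_cast hX0.trans hX
  have h1 : (X : ℝ) ^ (min ε 1) ≤ y :=
    (Real.rpow_le_rpow_of_exponent_le hX1 (min_le_left _ _)).trans hy1
  have hy0 : 0 ≤ y := le_trans (by positivity) h1
  exact (h X hX s hs y h1 hy2 b hb).trans (mul_le_mul_of_nonneg_right (min_le_left _ _) hy0)

end MRP
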