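import Mathlib
import Pool.Agent.Helper13.MRF.Law0

set_option autoImplicit false

/-! MRF-2: `LAW2`, the law of `Ω` on the integers of `(x, (1 + κ) x]` coprime to `q`.

Proof. (1) `coprime_sum`: for every `g : ℕ → ℝ` and `N`,
`∑_{n ≤ N, (n, q) = 1} g n = ∑_{d ∣ q} μ(d) ∑_{m ≤ N / d} g (d * m)` (from
`∑_{d ∣ gcd(n, q)} μ(d) = [gcd(n, q) = 1]`; swap the sums, `n = d * m`). With `g n = b (Ω n)`,
`g (d * m) = b (Ω m + Ω d)`, and `Ω d ≤ Ω q =: S`.
(2) `moebius_totient`: `∑_{d ∣ q} μ(d) / d = φ(q) / q` (Möbius inversion of `Nat.sum_totient`).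
(3) `law_coprime`: by `law0s` at `y / d` (`N / d = ⌊y / d⌋₊` for `N = ⌊y⌋₊`, `Nat.floor_div_natCast`),
`|∑_{n ≤ y, (n,q)=1} b (Ω n) - y (φ(q)/q) m_X(b)| ≤ τ y` for `X ^ ε ≤ y ≤ 2 X` (use `law0s` with
`ε' = min (ε / 2) (τ / (number of divisors))`; `y / d ≥ X ^ ε / q ≥ X ^ ε'` for `X` large).
(4) `law2`: difference of (3) at `(1 + κ) x` and at `x`, with `τ = ε κ / 4`. -/

namespace MRP

open Finset

theorem law2_moebius (n : ℕ) : ∑ d ∈ n.divisors, ((ArithmeticFunction.moebius d : ℤ) : ℝ) =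
    if n = 1 then 1 else 0 := by
  have h : ∑ d ∈ n.divisors, ArithmeticFunction.moebius d = if n = 1 then 1 else 0 := by
    rw [← ArithmeticFunction.coe_mul_zeta_apply, ArithmeticFunction.moebius_mul_coe_zeta,
      ArithmeticFunction.one_apply]
  have h2 := congrArg (fun z : ℤ => (z : ℝ)) h
  push_cast at h2
  rw [h2]

theorem coprime_sum (q : ℕ) (hq : 1 ≤ q) (g : ℕ → ℝ) (N : ℕ) :
    ∑ n ∈ (Finset.Icc 1 N).filter (fun n => Nat.Coprime n q), g n =
      ∑ d ∈ q.divisors, (ArithmeticFunction.moebius d : ℝ) * ∑ m ∈ Finset.Icc 1 (N / d),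
        g (d * m) := by
  have h1 : ∀ n ∈ Finset.Icc 1 N, (if Nat.Coprime n q then g n else 0) =
      ∑ d ∈ q.divisors, (ArithmeticFunction.moebius d : ℝ) * (if d ∣ n then g n else 0) := by
    intro n hn
    have h2 : ∑ d ∈ q.divisors, (ArithmeticFunction.moebius d : ℝ) * (if d ∣ n then g n else 0) =
        (∑ d ∈ (Nat.gcd n q).divisors, ((ArithmeticFunction.moebius d : ℤ) : ℝ)) * g n := by
      rw [Finset.sum_mul]
      have h3 : (Nat.gcd n q).divisors = q.divisors.filter (fun d => d ∣ n) := by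
        ext d
        simp only [Nat.mem_divisors, Finset.mem_filter, Nat.dvd_gcd_iff]
        have : Nat.gcd n q ≠ 0 := (Nat.gcd_pos_of_pos_right n hq).ne'
        constructor
        · rintro ⟨⟨a, b⟩, -⟩; exact ⟨⟨b, by omega⟩, a⟩
        · rintro ⟨⟨a, -⟩, b⟩; exact ⟨⟨b, a⟩, this⟩
      rw [h3, Finset.sum_filter]
      apply Finset.sum_congr rfl
      intro d _
      split_ifs <;> simp
    rw [h2, law2_moebius]
    by_cases hc : Nat.Coprime n q
    · rw [if_pos hc, if_pos hc, one_mul]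
    · rw [if_neg hc, if_neg hc, zero_mul]
  rw [Finset.sum_filter, Finset.sum_congr rfl h1, Finset.sum_comm]
  apply Finset.sum_congr rfl
  intro d hd
  rw [← Finset.mul_sum]
  congr 1
  have hd0 : 0 < d := Nat.pos_of_mem_divisors hd
  rw [← Finset.sum_filter]
  symm
  apply Finset.sum_bij (fun m _ => d * m)
  · intro m hm
    rw [Finset.mem_Icc] at hm
    rw [Finset.mem_filter, Finset.mem_Icc]
    refine ⟨⟨Nat.mul_pos hd0 hm.1, ?_⟩, Dvd.intro m rfl⟩
    calc d * m ≤ d * (N / d) := Nat.mul_le_mul_left d hm.2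
      _ ≤ N := Nat.mul_div_le N d
  · intro a _ b _ hab
    exact Nat.eq_of_mul_eq_mul_left hd0 hab
  · intro n hn
    rw [Finset.mem_filter, Finset.mem_Icc] at hn
    obtain ⟨⟨h1, h2⟩, m, rfl⟩ := hn
    refine ⟨m, ?_, rfl⟩
    rw [Finset.mem_Icc]
    refine ⟨Nat.pos_of_mul_pos_left h1, ?_⟩
    rw [Nat.le_div_iff_mul_le hd0, mul_comm]
    exact h2
  · intro m _
    rfl

theorem moebius_totient (q : ℕ) (hq : 1 ≤ q) :
    ∑ d ∈ q.divisors, (ArithmeticFunction.moebius d : ℝ) / (d : ℝ) =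
      (Nat.totient q : ℝ) / (q : ℝ) := by
  have h := coprime_sum q hq (fun _ => 1) q
  have hc : ((Finset.Icc 1 q).filter (fun n => Nat.Coprime n q)).card = Nat.totient q := by
    rw [← Nat.filter_coprime_Ico_eq_totient q 1]
    congr 1
    ext n
    simp only [Finset.mem_filter, Finset.mem_Icc, Finset.mem_Ico]
    constructor
    · rintro ⟨⟨a, b⟩, c⟩; exact ⟨⟨a, by omega⟩, c.symm⟩
    · rintro ⟨⟨a, b⟩, c⟩; exact ⟨⟨a, by omega⟩, Nat.Coprime.symm c⟩
  rw [Finset.sum_const, nsmul_eq_mul, mul_one, hc] at h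
  rw [h, Finset.sum_div]
  apply Finset.sum_congr rfl
  intro d hd
  have hd0 : 0 < d := Nat.pos_of_mem_divisors hd
  have hd1 : (d : ℝ) ≠ 0 := by exact_mod_cast hd0.ne'
  have hq1 : (q : ℝ) ≠ 0 := by exact_mod_cast (by omega : q ≠ 0)
  rw [Finset.sum_const, nsmul_eq_mul, mul_one, Nat.card_Icc, Nat.add_sub_cancel,
    Nat.cast_div (Nat.dvd_of_mem_divisors hd) hd1]
  field_simp

theorem law_coprime (q : ℕ) (hq : 1 ≤ q) (ε τ : ℝ) (hε : 0 < ε) (hτ : 0 < τ) :
    ∃ X0 : ℕ, ∀ X : ℕ, X0 ≤ X → ∀ y : ℝ, (X : ℝ) ^ ε ≤ y → y ≤ 2 * X →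
      ∀ b : ℕ → ℝ, (∀ m, |b m| ≤ 1) →
        |(∑ n ∈ (Finset.Icc 1 ⌊y⌋₊).filter (fun n => Nat.Coprime n q), b (Om n)) -
          y * ((Nat.totient q : ℝ) / (q : ℝ)) * mX X b| ≤ τ * y := by
  have hDpos : 0 < q.divisors.card := Finset.card_pos.2 ⟨1, by simp; omega⟩
  have hD : (0 : ℝ) < (q.divisors.card : ℝ) := by exact_mod_cast hDpos
  set ε' : ℝ := min (ε / 2) (τ / (q.divisors.card : ℝ)) with hε'
  have hε'0 : 0 < ε' := lt_min (by linarith) (by positivity)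
  obtain ⟨X0, hX0⟩ := law0s (Om q) ε' hε'0
  have hev : ∀ᶠ X : ℕ in Filter.atTop, (q : ℝ) ≤ (X : ℝ) ^ (ε / 2) := by
    have ht := (tendsto_rpow_atTop (by linarith : 0 < ε / 2)).comp
      (tendsto_natCast_atTop_atTop (R := ℝ))
    exact ht.eventually_ge_atTop (q : ℝ)
  obtain ⟨X1, hX1⟩ := Filter.eventually_atTop.1 hev
  refine ⟨max 1 (max X0 X1), fun X hX y hy1 hy2 b hb => ?_⟩
  have hXa : 1 ≤ X := le_trans (le_max_left _ _) hX
  have hXb : X0 ≤ X := le_trans ((le_max_left _ _).trans (le_max_right _ _)) hX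
  have hXc : X1 ≤ X := le_trans ((le_max_right _ _).trans (le_max_right _ _)) hX
  have hXR : (1 : ℝ) ≤ (X : ℝ) := by exact_mod_cast hXa
  have hq0 : (0 : ℝ) < (q : ℝ) := by exact_mod_cast (by omega : 0 < q)
  have hqX := hX1 X hXc
  have hy0 : 0 < y := lt_of_lt_of_le (Real.rpow_pos_of_pos (by linarith) _) hy1
  rw [coprime_sum q hq (fun n => b (Om n)) ⌊y⌋₊]
  have hmt := moebius_totient q hq
  have e1 : y * ((Nat.totient q : ℝ) / (q : ℝ)) * mX X b =
      ∑ d ∈ q.divisors, (ArithmeticFunction.moebius d : ℝ) * ((y / d) * mX X b) := by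
    rw [← hmt, Finset.mul_sum, Finset.sum_mul]
    apply Finset.sum_congr rfl
    intro d _
    ring
  rw [e1, ← Finset.sum_sub_distrib]
  refine (Finset.abs_sum_le_sum_abs _ _).trans ?_
  have hterm : ∀ d ∈ q.divisors,
      |(ArithmeticFunction.moebius d : ℝ) * (∑ m ∈ Finset.Icc 1 (⌊y⌋₊ / d), b (Om (d * m))) -
        (ArithmeticFunction.moebius d : ℝ) * ((y / d) * mX X b)| ≤ ε' * y := by
    intro d hd
    have hd0 : 0 < d := Nat.pos_of_mem_divisors hd
    have hdR : (1 : ℝ) ≤ (d : ℝ) := by exact_mod_cast hd0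
    have hdvd : d ∣ q := Nat.dvd_of_mem_divisors hd
    have hdq : (d : ℝ) ≤ (q : ℝ) := by exact_mod_cast Nat.le_of_dvd (by omega) hdvd
    have hsum : ∑ m ∈ Finset.Icc 1 (⌊y⌋₊ / d), b (Om (d * m)) =
        ∑ m ∈ Finset.Icc 1 ⌊y / d⌋₊, b (Om m + Om d) := by
      rw [Nat.floor_div_natCast]
      apply Finset.sum_congr rfl
      intro m hm
      rw [Finset.mem_Icc] at hm
      have : Om (d * m) = Om m + Om d := by
        show ArithmeticFunction.cardFactors (d * m) = _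
        rw [ArithmeticFunction.cardFactors_mul (by omega) (by omega), add_comm]
      rw [this]
    have hs : Om d ≤ Om q := by
      obtain ⟨e, rfl⟩ := hdvd
      have he : e ≠ 0 := by
        rintro rfl
        simp at hq
      show ArithmeticFunction.cardFactors d ≤ ArithmeticFunction.cardFactors (d * e)
      rw [ArithmeticFunction.cardFactors_mul (by omega) he]
      omega
    have hlow : (X : ℝ) ^ ε' ≤ y / d := by
      have h1 : (X : ℝ) ^ ε' ≤ (X : ℝ) ^ (ε / 2) :=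
        Real.rpow_le_rpow_of_exponent_le hXR (min_le_left _ _)
      rw [le_div_iff₀ (by linarith)]
      have h2 : (X : ℝ) ^ ε = (X : ℝ) ^ (ε / 2) * (X : ℝ) ^ (ε / 2) := by
        rw [← Real.rpow_add (by linarith)]
        congr 1
        ring
      have h3 : (0 : ℝ) ≤ (X : ℝ) ^ (ε / 2) := Real.rpow_nonneg (by linarith) _
      calc (X : ℝ) ^ ε' * d ≤ (X : ℝ) ^ (ε / 2) * (X : ℝ) ^ (ε / 2) := by
            apply mul_le_mul h1 (hdq.trans hqX) (by linarith) h3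
        _ ≤ y := by rw [← h2]; exact hy1
    have hhigh : y / d ≤ 2 * X := (div_le_self hy0.le hdR).trans hy2
    have key := hX0 X hXb (Om d) hs (y / d) hlow hhigh b hb
    rw [hsum, ← mul_sub, abs_mul]
    have hmu : |(ArithmeticFunction.moebius d : ℝ)| ≤ 1 := by
      have := ArithmeticFunction.abs_moebius_le_one (n := d)
      exact_mod_cast this
    calc |(ArithmeticFunction.moebius d : ℝ)| *
          |∑ m ∈ Finset.Icc 1 ⌊y / d⌋₊, b (Om m + Om d) - y / d * mX X b|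
        ≤ 1 * (ε' * (y / d)) := mul_le_mul hmu key (abs_nonneg _) (by norm_num)
      _ ≤ ε' * y := by
        rw [one_mul]
        exact mul_le_mul_of_nonneg_left (div_le_self hy0.le hdR) hε'0.le
  refine (Finset.sum_le_sum hterm).trans ?_
  rw [Finset.sum_const, nsmul_eq_mul]
  have h4 : (q.divisors.card : ℝ) * ε' ≤ τ := by
    calc (q.divisors.card : ℝ) * ε' ≤ (q.divisors.card : ℝ) * (τ / (q.divisors.card : ℝ)) :=
          mul_le_mul_of_nonneg_left (min_le_right _ _) hD.le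
      _ = τ := by field_simp
  calc (q.divisors.card : ℝ) * (ε' * y) = ((q.divisors.card : ℝ) * ε') * y := by ring
    _ ≤ τ * y := mul_le_mul_of_nonneg_right h4 hy0.le

theorem law2 : LAW2 := by
  intro q hq κ ε hκ hκ1 hε
  obtain ⟨X0, hX0⟩ := law_coprime q hq ε (ε * κ / 4) hε (by positivity)
  refine ⟨max 1 X0, fun X hX x hx1 hx2 b hb => ?_⟩
  have hXa : 1 ≤ X := le_trans (le_max_left _ _) hX
  have hXR : (1 : ℝ) ≤ (X : ℝ) := by exact_mod_cast hXa
  have hx0 : 0 < x := lt_of_lt_of_le (Real.rpow_pos_of_pos (by linarith) _) hx1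
  have hxy : x ≤ (1 + κ) * x := by nlinarith
  have k1 := hX0 X (le_trans (le_max_right _ _) hX) x hx1 (by linarith) b hb
  have k2 := hX0 X (le_trans (le_max_right _ _) hX) ((1 + κ) * x) (hx1.trans hxy)
    (by nlinarith) b hb
  have hfl : ⌊x⌋₊ ≤ ⌊(1 + κ) * x⌋₊ := Nat.floor_le_floor hxy
  have hsplit : ∑ n ∈ (Finset.Icc 1 ⌊(1 + κ) * x⌋₊).filter (fun n => Nat.Coprime n q), b (Om n) =
      (∑ n ∈ (Finset.Icc 1 ⌊x⌋₊).filter (fun n => Nat.Coprime n q), b (Om n)) +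
      ∑ n ∈ (Finset.Ioc ⌊x⌋₊ ⌊(1 + κ) * x⌋₊).filter (fun n => Nat.Coprime n q), b (Om n) := by
    rw [← Finset.sum_union]
    · congr 1
      ext n
      simp only [Finset.mem_union, Finset.mem_filter, Finset.mem_Icc, Finset.mem_Ioc]
      constructor
      · rintro ⟨⟨a, c⟩, d⟩
        rcases Nat.lt_or_ge ⌊x⌋₊ n with h | h
        · exact Or.inr ⟨⟨h, c⟩, d⟩
        · exact Or.inl ⟨⟨a, h⟩, d⟩
      · rintro (⟨⟨a, c⟩, d⟩ | ⟨⟨a, c⟩, d⟩)
        · exact ⟨⟨a, c.trans hfl⟩, d⟩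
        · exact ⟨⟨by omega, c⟩, d⟩
    · rw [Finset.disjoint_left]
      intro n h1 h2
      simp only [Finset.mem_filter, Finset.mem_Icc, Finset.mem_Ioc] at h1 h2
      omega
  rw [hsplit] at k2
  rw [abs_le] at k1 k2 ⊢
  set A := ∑ n ∈ (Finset.Icc 1 ⌊x⌋₊).filter (fun n => Nat.Coprime n q), b (Om n)
  set B := ∑ n ∈ (Finset.Ioc ⌊x⌋₊ ⌊(1 + κ) * x⌋₊).filter (fun n => Nat.Coprime n q), b (Om n)
  set c := ((Nat.totient q : ℝ) / (q : ℝ)) with hc
  have e2 : κ * x * c * mX X b = (1 + κ) * x * c * mX X b - x * c * mX X b := by ring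
  have h5 : ε * κ / 4 * ((1 + κ) * x) + ε * κ / 4 * x ≤ ε * κ * x := by
    have : 0 < ε * κ * x := by positivity
    have h6 : ε * κ / 4 * ((1 + κ) * x) ≤ ε * κ / 4 * (2 * x) := by
      apply mul_le_mul_of_nonneg_left _ (by positivity)
      nlinarith
    nlinarith
  constructor
  · linarith [k1.1, k1.2, k2.1, k2.2]
  · linarith [k1.1, k1.2, k2.1, k2.2]

end MRP
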