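import Mathlib
import Pool.Agent.Helper6.MR.Iface2
import Pool.Agent.Helper13.MRF.Law2
import Pool.Agent.Helper11.QR.LawScale

set_option autoImplicit false

/-! MRF-4: the laws at a single scale: `LAW1x`, `LAWx`, `LAW2x`.

`mx x b = 1 / x * ∑_{n ≤ x} b (Ω n)`. `law1x`: the first part is `shiftInv_eventually`
(Helper13/Om/Noise.lean, `Bv_nat`); the second part is the first one for `dn b`, since
`up 1 (dn b) = b`; the third part is `lawScale ε ε` (Helper11/QR/LawScale.lean; `y ≥ x ^ ε` gives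
`ε * log x ≤ log y`). `lawx`: first part as before; second part `lawScale (1 / 2) ε` with
`M = x / d` (`x / d ≥ √x` for `x` large). `law2x`: from `law_coprime q (1 / 2) (ε κ / 8)`
(Helper13/MRF/Law2.lean) at `X := x` with `y = x` and `y = (1 + κ) x` (both between `x ^ (1/2)` and
`2 x`), which gives the asymptotics with `mX x b`; and `|mX x b - mx x b| ≤ ε / 8` by `law0 `
(`M := X := x`, Helper13/MRF/Law0.lean). `Ioc x ⌊(1 + κ) x⌋₊` is the difference of the two
`Icc 1 _`. -/

namespace MRP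

open Finset Helper13.Om Helper11.QR

theorem mx_eq (x : ℕ) (b : ℕ → ℝ) :
    mx x b = 1 / (x : ℝ) * ∑ n ∈ Finset.Icc 1 x, b (Om n) := by
  unfold mx
  ring

/-- the shift at a single scale -/
theorem lawx_shift (ε : ℝ) (hε : 0 < ε) : ∃ x0 : ℕ, ∀ x : ℕ, x0 ≤ x →
    ∀ b : ℕ → ℝ, (∀ m, |b m| ≤ 1) → |mx x (up 1 b) - mx x b| ≤ ε := by
  obtain ⟨X2, h2⟩ := shiftInv_eventually ε hε
  refine ⟨X2, fun x hx b hb => ?_⟩
  have hc := h2 x hx b hb
  rw [Bv_nat, Bv_nat] at hc
  rw [mx_eq, mx_eq, abs_sub_comm]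
  exact hc

theorem law1x : LAW1x := by
  intro ε hε
  obtain ⟨X1, h1⟩ := lawx_shift ε hε
  obtain ⟨X2, h2⟩ := lawScale ε ε hε hε
  refine ⟨max (max X1 X2) 1, fun x hx b hb => ⟨?_, ?_, ?_⟩⟩
  · exact h1 x ((le_max_left _ _).trans ((le_max_left _ _).trans hx)) b hb
  · have h3 := h1 x ((le_max_left _ _).trans ((le_max_left _ _).trans hx)) (dn b)
      (fun m => hb _)
    have h4 : up 1 (dn b) = b := by
      funext m
      unfold up dn
      rw [Nat.add_sub_cancel]
    rw [h4, abs_sub_comm] at h3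
    exact h3
  · intro y hy hyx
    have hx1 : 1 ≤ x := (le_max_right _ _).trans hx
    have hx0 : (0 : ℝ) < x := by exact_mod_cast hx1
    have hlog : ε * Real.log x ≤ Real.log y := by
      rw [← Real.log_rpow hx0]
      exact Real.log_le_log (Real.rpow_pos_of_pos hx0 _) hy
    rw [mx_eq, mx_eq]
    exact h2 x ((le_max_right _ _).trans ((le_max_left _ _).trans hx)) y hyx hlog b hb

theorem lawx : LAWx := by
  intro ε hε d hd
  obtain ⟨X1, h1⟩ := lawx_shift ε hε
  obtain ⟨X2, h2⟩ := lawScale (1 / 2) ε (by norm_num) hε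
  refine ⟨max (max X1 X2) (4 * d ^ 2), fun x hx b hb => ⟨?_, ?_⟩⟩
  · exact h1 x ((le_max_left _ _).trans ((le_max_left _ _).trans hx)) b hb
  · have hx4 : 4 * d ^ 2 ≤ x := (le_max_right _ _).trans hx
    have hd2 : 1 ≤ d ^ 2 := Nat.one_le_pow _ _ hd
    have hx1 : 1 ≤ x := by omega
    have hx0 : (0 : ℝ) < x := by exact_mod_cast hx1
    -- x / d is at least the square root of x
    have hq : x ≤ (x / d) ^ 2 := by
      have h3 : 4 * d ≤ x / d := by
        rw [Nat.le_div_iff_mul_le (by omega)]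
        calc 4 * d * d = 4 * d ^ 2 := by ring
          _ ≤ x := hx4
      have h4 : x < (x / d + 1) * d := by
        have := Nat.lt_div_mul_add (a := x) (b := d) (by omega)
        calc x < x / d * d + d := this
          _ = (x / d + 1) * d := by ring
      have h5 : (x / d + 1) * d ≤ (x / d) * (2 * d) := by
        have : x / d + 1 ≤ 2 * (x / d) := by omega
        calc (x / d + 1) * d ≤ (2 * (x / d)) * d := Nat.mul_le_mul_right _ this
          _ = (x / d) * (2 * d) := by ring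
      have h6 : (x / d) * (2 * d) ≤ (x / d) * (x / d) := Nat.mul_le_mul_left _ (by omega)
      calc x ≤ (x / d) * (x / d) := by omega
        _ = (x / d) ^ 2 := by ring
    have hpos : 1 ≤ x / d := by
      rw [Nat.one_le_div_iff (by omega)]
      nlinarith
    have hlog : 1 / 2 * Real.log x ≤ Real.log ((x / d : ℕ) : ℝ) := by
      have h7 : (x : ℝ) ≤ (((x / d : ℕ) : ℝ)) ^ 2 := by exact_mod_cast hq
      have h8 := Real.log_le_log hx0 h7
      rw [Real.log_pow] at h8
      push_cast at h8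
      linarith
    rw [mx_eq, mx_eq]
    exact h2 x ((le_max_right _ _).trans ((le_max_left _ _).trans hx)) (x / d)
      (Nat.div_le_self _ _) hlog b hb

theorem law2x : LAW2x := by
  intro q hq κ ε hκ hκ1 hε
  obtain ⟨X1, h1⟩ := law_coprime q hq (1 / 2) (ε * κ / 8) (by norm_num) (by positivity)
  obtain ⟨X2, hX2, h2⟩ := law0_top (ε / 8) (by positivity)
  refine ⟨max (max X1 X2) 1, fun x hx b hb => ?_⟩
  have hx1 : 1 ≤ x := (le_max_right _ _).trans hx
  have hx0 : (0 : ℝ) < x := by exact_mod_cast hx1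
  have hx1' : (1 : ℝ) ≤ x := by exact_mod_cast hx1
  have hxX1 : X1 ≤ x := (le_max_left _ _).trans ((le_max_left _ _).trans hx)
  have hxX2 : X2 ≤ x := (le_max_right _ _).trans ((le_max_left _ _).trans hx)
  have hsq : (x : ℝ) ^ (1 / 2 : ℝ) ≤ x := by
    calc (x : ℝ) ^ (1 / 2 : ℝ) ≤ (x : ℝ) ^ (1 : ℝ) :=
          Real.rpow_le_rpow_of_exponent_le hx1' (by norm_num)
      _ = x := Real.rpow_one _
  have hκx : (0 : ℝ) ≤ κ * x := by positivity
  have e1 := h1 x hxX1 (x : ℝ) hsq (by linarith) b hb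
  have e2 := h1 x hxX1 ((1 + κ) * x) (by nlinarith) (by nlinarith) b hb
  have e3 := h2 x hxX2 b hb
  rw [← mx_eq] at e3
  rw [Nat.floor_natCast] at e1
  set Y := ⌊(1 + κ) * (x : ℝ)⌋₊ with hY
  have hxY : x ≤ Y := by
    rw [hY]
    apply Nat.le_floor
    nlinarith
  have hsplit : ∑ n ∈ (Finset.Ioc x Y).filter (fun n => Nat.Coprime n q), b (Om n) =
      (∑ n ∈ (Finset.Icc 1 Y).filter (fun n => Nat.Coprime n q), b (Om n)) -
        ∑ n ∈ (Finset.Icc 1 x).filter (fun n => Nat.Coprime n q), b (Om n) := by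
    rw [eq_sub_iff_add_eq, ← Finset.sum_union]
    · refine Finset.sum_congr ?_ fun _ _ => rfl
      ext n
      simp only [Finset.mem_union, Finset.mem_filter, Finset.mem_Ioc, Finset.mem_Icc]
      constructor
      · rintro (⟨⟨h3, h4⟩, h5⟩ | ⟨⟨h3, h4⟩, h5⟩)
        · exact ⟨⟨by omega, h4⟩, h5⟩
        · exact ⟨⟨h3, by omega⟩, h5⟩
      · rintro ⟨⟨h3, h4⟩, h5⟩
        by_cases h6 : n ≤ x
        · exact Or.inr ⟨⟨h3, h6⟩, h5⟩
        · exact Or.inl ⟨⟨by omega, h4⟩, h5⟩
    · rw [Finset.disjoint_left]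
      intro n h3 h4
      rw [Finset.mem_filter, Finset.mem_Ioc] at h3
      rw [Finset.mem_filter, Finset.mem_Icc] at h4
      omega
  rw [hsplit]
  set c : ℝ := (Nat.totient q : ℝ) / (q : ℝ) with hc
  have hc0 : 0 ≤ c := by positivity
  have hc1 : c ≤ 1 := by
    rw [hc, div_le_one (by exact_mod_cast hq)]
    exact_mod_cast Nat.totient_le q
  have e4 : |κ * x * c * (mX x b - mx x b)| ≤ κ * x * (ε / 8) := by
    rw [abs_mul, abs_of_nonneg (by positivity : (0 : ℝ) ≤ κ * x * c)]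
    rw [abs_sub_comm] at e3
    calc κ * x * c * |mX x b - mx x b| ≤ κ * x * 1 * (ε / 8) := by
          refine mul_le_mul ?_ e3 (abs_nonneg _) (by positivity)
          exact mul_le_mul_of_nonneg_left hc1 hκx
      _ = κ * x * (ε / 8) := by ring
  have e5 : ε * κ / 8 * ((1 + κ) * x) ≤ ε * κ / 4 * x := by
    have : 0 ≤ ε * κ / 8 * x := by positivity
    nlinarith
  rw [abs_le] at e1 e2 e4 ⊢
  have e6 : 0 ≤ ε * κ * x := by positivity
  constructor
  · nlinarith [e1.1, e1.2, e2.1, e2.2, e4.1, e4.2]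
  · nlinarith [e1.1, e1.2, e2.1, e2.2, e4.1, e4.2]

end MRP
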