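import Mathlib
import Pool.Agent.Helper6.MR.UFinal
import Pool.Agent.Helper72.MRD.H03
import Pool.Agent.Helper72.MRD.H05
import Pool.Agent.Helper33.MRC.Bridge
import Pool.Agent.Helper11.MRU.PstarW
import Pool.Agent.Helper13.MRF.LawX
import Pool.Agent.Helper13.MRF.GoalW

set_option autoImplicit false

/-! Project MR: final assembly. -/

namespace MRP

theorem mrchi1x_holds : MRCHI1x := MRD.mrchi1x U.umain_D

theorem mrchi0x_holds : MRCHI0x := MRD.mrchi0x U.umain_D law1x law2x

theorem circx_holds : CIRCx := MRC.circx_bridge mrchi0x_holds mrchi1x_holds lawx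

theorem pstarw_holds : PSTARw := MRU.pstarw_holds circx_holds law1x

theorem goalw_holds : GOALw := goalw pstarw_holds

end MRP
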