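import Mathlib
import Pool.Agent.Helper13.MRF.Law0
import Pool.Agent.Helper11.QR.PartC
import Pool.Agent.Helper11.QR.PartU

set_option autoImplicit false

/-! MRF-3: `PSTAR` implies `GOAL2`.

(a) `box_scale`: for finite sets `A 0, A 1` and most `M ≤ N`, independence on the box: by
`PSTAR` with `a = 1_{A 0}`, `b = 1_{A 1}` the mean `Em 2 M (1_A)` is close to
`mX N a * mX N b` for most `M`; by `LAW0` for `M ≥ N ^ ε'` the product `Ep 2 M (1_A) =
(1/M ∑ a (Ω n)) (1/M ∑ b (Ω n))` (`Ep_box`) is close to the same product. The scales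
`M ≤ N ^ ε'` contribute at most `2 (1 + ε' log N)`.
(b) `goal2`: `regBox` (`k = 2`, `δ`, `p = pL N`, `L = N + 3`) at the scale `N`:
`F = G₀ + 2 G`, `G₀ = ∑ j, c j * 1_{A j}` (`J ≤ C(δ)` terms), `|G| ≤ 1`,
`|EpL 2 N (G ∏ f)| ≤ δ`. By `cutLog` (`η`, `τ`), `CutLe 2 M (δ + τ) G` for `log M ≥ η log N`; for
the other `M`, `CutLe 2 M 1 G` trivially. `partU` (`k = 2`, `ε / 8`) with `F M := G` and
`κ M = δ + τ` or `1` gives `∑ (1/M) |Em G - Ep G| ≤ (ε/8) log N + C ∑ κ M / M`,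
`∑ κ M / M ≤ (δ + τ) (1 + log N) + (1 + η log N)` (`sum_small_scales`). Choose `δ = τ = η` small
in terms of `C`, `ε`; then (a) with `ε' = ε / (4 (C(δ) + 1))` for each `j`. -/

namespace MRP

open Finset Helper13.Om Helper11.QR

private lemma g_small (N : ℕ) (hN : 1 ≤ N) (η : ℝ) (hη : 0 < η) :
    ∑ M ∈ (Finset.Icc 1 N).filter (fun M : ℕ => ¬ η * Real.log N ≤ Real.log M), (1 / (M : ℝ)) ≤
      1 + η * Real.log N := by
  have hlog : 0 ≤ Real.log N := Real.log_nonneg (by exact_mod_cast hN)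
  set y : ℝ := Real.exp (η * Real.log N) with hy
  have hy1 : 1 ≤ y := Real.one_le_exp (mul_nonneg hη.le hlog)
  have h1 := harmonic_floor_le_one_add_log y hy1
  rw [harmonic_eq_sum_Icc, Rat.cast_sum] at h1
  simp only [Rat.cast_inv, Rat.cast_natCast] at h1
  rw [hy, Real.log_exp] at h1
  simp only [one_div]
  refine le_trans ?_ h1
  apply Finset.sum_le_sum_of_subset_of_nonneg
  · intro M hM
    rw [Finset.mem_filter, Finset.mem_Icc] at hM
    obtain ⟨⟨h2, _⟩, h4⟩ := hM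
    rw [Finset.mem_Icc]
    refine ⟨h2, Nat.le_floor ?_⟩
    have hM0 : (0 : ℝ) < M := by exact_mod_cast h2
    rw [not_le] at h4
    rw [← Real.exp_log hM0]
    exact Real.exp_le_exp.2 h4.le
  · intro M _ _
    positivity

private lemma g_harm (N : ℕ) : ∑ M ∈ Finset.Icc 1 N, (1 / (M : ℝ)) ≤ 1 + Real.log N := by
  have h1 := harmonic_le_one_add_log N
  rw [harmonic_eq_sum_Icc] at h1
  push_cast at h1
  simpa [one_div] using h1

private lemma g_mX_abs (N : ℕ) (b : ℕ → ℝ) (hb : ∀ m, |b m| ≤ 1) : |mX N b| ≤ 1 := by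
  unfold mX LS
  have h0 : 0 ≤ ∑ n ∈ Finset.Icc 1 N, (1 / (n : ℝ)) :=
    Finset.sum_nonneg fun n _ => by positivity
  rw [abs_div, abs_of_nonneg h0]
  refine div_le_one_of_le₀ ?_ h0
  refine (Finset.abs_sum_le_sum_abs _ _).trans (Finset.sum_le_sum fun n _ => ?_)
  rw [abs_mul, abs_of_nonneg (by positivity : (0 : ℝ) ≤ 1 / (n : ℝ))]
  exact mul_le_of_le_one_right (by positivity) (hb _)

private lemma g_mean_abs (M : ℕ) (b : ℕ → ℝ) (hb : ∀ m, |b m| ≤ 1) :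
    |(1 / (M : ℝ)) * ∑ n ∈ Finset.Icc 1 M, b (Om n)| ≤ 1 := by
  rcases Nat.eq_zero_or_pos M with h | h
  · subst h
    simp
  · have hM : (0 : ℝ) < M := by exact_mod_cast h
    rw [abs_mul, abs_of_pos (by positivity), one_div_mul_eq_div, div_le_one hM]
    refine (Finset.abs_sum_le_sum_abs _ _).trans ?_
    refine (Finset.sum_le_card_nsmul _ _ 1 (fun n _ => hb _)).trans (le_of_eq ?_)
    rw [Nat.card_Icc, Nat.add_sub_cancel, nsmul_eq_mul, mul_one]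

private lemma g_ind (A : Finset ℕ) (m : ℕ) : |(if m ∈ A then (1 : ℝ) else 0)| ≤ 1 := by
  split_ifs <;> simp

private lemma g_Em (M : ℕ) (A : Fin 2 → Finset ℕ) :
    Em 2 M (fun ℓ => if ∀ i, ℓ i ∈ A i then (1 : ℝ) else 0) =
      (1 / (M : ℝ)) * ∑ n ∈ Finset.Icc 1 M,
        (if Om n ∈ A 0 then (1 : ℝ) else 0) * (if Om (n + 1) ∈ A 1 then (1 : ℝ) else 0) := by
  unfold Em
  congr 1
  refine Finset.sum_congr rfl fun n _ => ?_
  simp only [Fin.forall_fin_two, Fin.val_zero, Fin.val_one, add_zero]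
  by_cases h0 : Om n ∈ A 0 <;> by_cases h1 : Om (n + 1) ∈ A 1 <;> simp [h0, h1]

private lemma g_Ep (M : ℕ) (A : Fin 2 → Finset ℕ) :
    Ep 2 M (fun ℓ => if ∀ i, ℓ i ∈ A i then (1 : ℝ) else 0) =
      ((1 / (M : ℝ)) * ∑ n ∈ Finset.Icc 1 M, (if Om n ∈ A 0 then (1 : ℝ) else 0)) *
      ((1 / (M : ℝ)) * ∑ n ∈ Finset.Icc 1 M, (if Om n ∈ A 1 then (1 : ℝ) else 0)) := by
  rw [Ep_box, Fin.prod_univ_two, Finset.card_filter, Finset.card_filter]
  push_cast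
  rfl

theorem box_scale (hP : PSTAR) (ε : ℝ) (hε : 0 < ε) : ∃ N0 : ℕ, ∀ N : ℕ, N0 ≤ N →
    ∀ A : Fin 2 → Finset ℕ,
      ∑ M ∈ Finset.Icc 1 N, (1 / (M : ℝ)) *
        |Em 2 M (fun ℓ => if ∀ i, ℓ i ∈ A i then (1 : ℝ) else 0) -
          Ep 2 M (fun ℓ => if ∀ i, ℓ i ∈ A i then (1 : ℝ) else 0)| ≤ ε * Real.log N := by
  obtain ⟨N1, h1⟩ := hP (ε / 4) (by positivity)
  obtain ⟨N2, h2⟩ := law0 (ε / 16) (by positivity)
  refine ⟨max (max N1 N2) (⌈Real.exp (4 / ε + 1)⌉₊ + 1), fun N hN A => ?_⟩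
  have hN1 : N1 ≤ N := (le_max_left _ _).trans ((le_max_left _ _).trans hN)
  have hN2 : N2 ≤ N := (le_max_right _ _).trans ((le_max_left _ _).trans hN)
  have hN3 : ⌈Real.exp (4 / ε + 1)⌉₊ + 1 ≤ N := (le_max_right _ _).trans hN
  have hN4 : 1 ≤ N := by omega
  have hlog : 4 / ε + 1 ≤ Real.log N := by
    rw [Real.le_log_iff_exp_le (by exact_mod_cast hN4)]
    calc Real.exp (4 / ε + 1) ≤ (⌈Real.exp (4 / ε + 1)⌉₊ : ℝ) := Nat.le_ceil _
      _ ≤ (N : ℝ) := by exact_mod_cast (by omega : ⌈Real.exp (4 / ε + 1)⌉₊ ≤ N)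
  set a : ℕ → ℝ := fun m => if m ∈ A 0 then (1 : ℝ) else 0 with ha
  set b : ℕ → ℝ := fun m => if m ∈ A 1 then (1 : ℝ) else 0 with hb
  have ha1 : ∀ m, |a m| ≤ 1 := fun m => g_ind (A 0) m
  have hb1 : ∀ m, |b m| ≤ 1 := fun m => g_ind (A 1) m
  have h3 := h1 N hN1 a b ha1 hb1
  have hterm : ∀ M ∈ Finset.Icc 1 N, (1 / (M : ℝ)) *
        |Em 2 M (fun ℓ => if ∀ i, ℓ i ∈ A i then (1 : ℝ) else 0) -
          Ep 2 M (fun ℓ => if ∀ i, ℓ i ∈ A i then (1 : ℝ) else 0)| ≤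
      (1 / (M : ℝ)) * |(1 / (M : ℝ)) * ∑ n ∈ Finset.Icc 1 M, a (Om n) * b (Om (n + 1)) -
          mX N a * mX N b| + ((ε / 8) * (1 / (M : ℝ)) +
        2 * (if ¬ ε / 16 * Real.log N ≤ Real.log M then 1 / (M : ℝ) else 0)) := by
    intro M hM
    rw [Finset.mem_Icc] at hM
    rw [g_Em, g_Ep]
    have e1 : (1 / (M : ℝ)) * ∑ n ∈ Finset.Icc 1 M,
        (if Om n ∈ A 0 then (1 : ℝ) else 0) * (if Om (n + 1) ∈ A 1 then (1 : ℝ) else 0) =
        (1 / (M : ℝ)) * ∑ n ∈ Finset.Icc 1 M, a (Om n) * b (Om (n + 1)) := rfl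
    have e2 : ((1 / (M : ℝ)) * ∑ n ∈ Finset.Icc 1 M, (if Om n ∈ A 0 then (1 : ℝ) else 0)) *
      ((1 / (M : ℝ)) * ∑ n ∈ Finset.Icc 1 M, (if Om n ∈ A 1 then (1 : ℝ) else 0)) =
      ((1 / (M : ℝ)) * ∑ n ∈ Finset.Icc 1 M, a (Om n)) *
        ((1 / (M : ℝ)) * ∑ n ∈ Finset.Icc 1 M, b (Om n)) := rfl
    rw [e1, e2]
    set u := (1 / (M : ℝ)) * ∑ n ∈ Finset.Icc 1 M, a (Om n) * b (Om (n + 1)) with hu
    set p := (1 / (M : ℝ)) * ∑ n ∈ Finset.Icc 1 M, a (Om n) with hp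
    set q := (1 / (M : ℝ)) * ∑ n ∈ Finset.Icc 1 M, b (Om n) with hq
    have hp1 : |p| ≤ 1 := g_mean_abs M a ha1
    have hq1 : |q| ≤ 1 := g_mean_abs M b hb1
    have hma : |mX N a| ≤ 1 := g_mX_abs N a ha1
    have hmb : |mX N b| ≤ 1 := g_mX_abs N b hb1
    have hM0 : (0 : ℝ) ≤ 1 / (M : ℝ) := by positivity
    have hcase : |mX N a * mX N b - p * q| ≤
        ε / 8 + 2 * (if ¬ ε / 16 * Real.log N ≤ Real.log M then 1 else 0) := by
      by_cases hc : ε / 16 * Real.log N ≤ Real.log M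
      · rw [if_neg (not_not.2 hc)]
        have hM1 : (0 : ℝ) < M := by exact_mod_cast hM.1
        have hNM : (N : ℝ) ^ (ε / 16) ≤ M := by
          rw [Real.rpow_def_of_pos (by exact_mod_cast hN4), ← Real.exp_log hM1,
            mul_comm (Real.log N)]
          exact Real.exp_le_exp.2 hc
        have g1 := h2 N hN2 M hNM hM.2 a ha1
        have g2 := h2 N hN2 M hNM hM.2 b hb1
        rw [← hp] at g1
        rw [← hq] at g2
        have g3 : mX N a * mX N b - p * q = -((p - mX N a) * mX N b) - p * (q - mX N b) := by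
          ring
        rw [g3]
        have g4 : |(p - mX N a) * mX N b| ≤ ε / 16 := by
          rw [abs_mul]
          calc |p - mX N a| * |mX N b| ≤ ε / 16 * 1 :=
                mul_le_mul g1 hmb (abs_nonneg _) (by positivity)
            _ = ε / 16 := mul_one _
        have g5 : |p * (q - mX N b)| ≤ ε / 16 := by
          rw [abs_mul]
          calc |p| * |q - mX N b| ≤ 1 * (ε / 16) :=
                mul_le_mul hp1 g2 (abs_nonneg _) zero_le_one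
            _ = ε / 16 := one_mul _
        have g6 := abs_le.1 g4
        have g7 := abs_le.1 g5
        rw [abs_le]
        constructor <;> linarith [g6.1, g6.2, g7.1, g7.2]
      · rw [if_pos hc]
        have g1 : |mX N a * mX N b| ≤ 1 := by
          rw [abs_mul]
          exact mul_le_one₀ hma (abs_nonneg _) hmb
        have g2 : |p * q| ≤ 1 := by
          rw [abs_mul]
          exact mul_le_one₀ hp1 (abs_nonneg _) hq1
        have g6 := abs_le.1 g1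
        have g7 := abs_le.1 g2
        rw [abs_le]
        constructor <;> linarith [g6.1, g6.2, g7.1, g7.2]
    have htri : |u - p * q| ≤ |u - mX N a * mX N b| + |mX N a * mX N b - p * q| := by
      have := abs_add_le (u - mX N a * mX N b) (mX N a * mX N b - p * q)
      rwa [sub_add_sub_cancel] at this
    calc (1 / (M : ℝ)) * |u - p * q| ≤ (1 / (M : ℝ)) * (|u - mX N a * mX N b| +
          (ε / 8 + 2 * (if ¬ ε / 16 * Real.log N ≤ Real.log M then 1 else 0))) :=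
          mul_le_mul_of_nonneg_left (by linarith) hM0
      _ = _ := by
        split_ifs <;> ring
  refine (Finset.sum_le_sum hterm).trans ?_
  rw [Finset.sum_add_distrib, Finset.sum_add_distrib, ← Finset.mul_sum, ← Finset.mul_sum,
    ← Finset.sum_filter]
  have h4 := g_small N hN4 (ε / 16) (by positivity)
  have h5 := g_harm N
  have h6 : (ε / 8) * ∑ M ∈ Finset.Icc 1 N, (1 / (M : ℝ)) ≤ (ε / 8) * (1 + Real.log N) :=
    mul_le_mul_of_nonneg_left h5 (by positivity)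
  have h7 : 4 + ε ≤ ε * Real.log N := by
    have := mul_le_mul_of_nonneg_left hlog hε.le
    have e : ε * (4 / ε + 1) = 4 + ε := by
      field_simp
    linarith
  nlinarith

private lemma g_Em_sum (M J : ℕ) (c : Fin J → ℝ) (G : Fin J → (Fin 2 → ℕ) → ℝ) :
    Em 2 M (fun ℓ => ∑ j, c j * G j ℓ) - Ep 2 M (fun ℓ => ∑ j, c j * G j ℓ) =
      ∑ j, c j * (Em 2 M (G j) - Ep 2 M (G j)) := by
  rw [Em_fsum 2 M J (fun j ℓ => c j * G j ℓ), Ep_fsum 2 M J (fun j ℓ => c j * G j ℓ),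
    ← Finset.sum_sub_distrib]
  refine Finset.sum_congr rfl fun j _ => ?_
  rw [Em_smul', Ep_smul']
  ring

theorem goal2 (hP : PSTAR) : GOAL2 := by
  intro ε hε
  obtain ⟨C, hC0, N1, h1⟩ := partU 2 (by norm_num) (ε / 8) (by positivity)
  set δ : ℝ := ε / (24 * (C + 1)) with hδ
  have hδ0 : 0 < δ := by positivity
  obtain ⟨N2, h2⟩ := cutLog 2 δ δ hδ0 hδ0
  obtain ⟨CB, h3⟩ := regBox 2 δ hδ0
  obtain ⟨N3, h4⟩ := box_scale hP (ε / (4 * (CB + 1))) (by positivity)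
  refine ⟨max (max (max N1 N2) N3) (⌈Real.exp (4 * (C * (4 * δ + 2)) / ε)⌉₊ + 1),
    fun N hN F hF => ?_⟩
  have hN1 : N1 ≤ N := (le_max_left _ _).trans ((le_max_left _ _).trans
    ((le_max_left _ _).trans hN))
  have hN2 : N2 ≤ N := (le_max_right _ _).trans ((le_max_left _ _).trans
    ((le_max_left _ _).trans hN))
  have hN3 : N3 ≤ N := (le_max_right _ _).trans ((le_max_left _ _).trans hN)
  have hN4 : ⌈Real.exp (4 * (C * (4 * δ + 2)) / ε)⌉₊ + 1 ≤ N := (le_max_right _ _).trans hN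
  have hN5 : 1 ≤ N := by omega
  have hlog : 4 * (C * (4 * δ + 2)) / ε ≤ Real.log N := by
    rw [Real.le_log_iff_exp_le (by exact_mod_cast hN5)]
    calc Real.exp (4 * (C * (4 * δ + 2)) / ε) ≤
          (⌈Real.exp (4 * (C * (4 * δ + 2)) / ε)⌉₊ : ℝ) := Nat.le_ceil _
      _ ≤ (N : ℝ) := by
        exact_mod_cast (by omega : ⌈Real.exp (4 * (C * (4 * δ + 2)) / ε)⌉₊ ≤ N)
  have hlog0 : 0 ≤ Real.log N := Real.log_natCast_nonneg N
  change ∑ M ∈ Finset.Icc 1 N, (1 / (M : ℝ)) * |Em 2 M F - Ep 2 M F| ≤ ε * Real.log N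
  obtain ⟨J, c, A, hJ, hc, hS, hcutF⟩ := h3 (N + 2 + 1) (pL N) (pL_nonneg N)
    (pL_sum N (N + 2 + 1) hN5 (by omega)) F hF
  set S : (Fin 2 → ℕ) → ℝ := fun ℓ => ∑ j, c j * (if ∀ i, ℓ i ∈ A j i then (1 : ℝ) else 0)
    with hSdef
  set G : (Fin 2 → ℕ) → ℝ := fun ℓ => 1 / 2 * (F ℓ - S ℓ) with hG
  have hcutr : ∀ f : Fin 2 → ℕ → ℝ, (∀ i t, |f i t| ≤ 1) →
      |EpL 2 N (fun ℓ => (F ℓ - S ℓ) * ∏ i, f i (ℓ i))| ≤ δ := hcutF
  have hG1 : ∀ ℓ, |G ℓ| ≤ 1 := by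
    intro ℓ
    have g1 : |S ℓ| ≤ 1 := hS ℓ
    have g2 := abs_sub (F ℓ) (S ℓ)
    have g3 := hF ℓ
    change |1 / 2 * (F ℓ - S ℓ)| ≤ 1
    rw [abs_mul, abs_of_pos (by norm_num : (0 : ℝ) < 1 / 2)]
    linarith
  have hprod : ∀ f : Fin 2 → ℕ → ℝ, (∀ i t, |f i t| ≤ 1) → ∀ ℓ : Fin 2 → ℕ,
      |G ℓ * ∏ i, f i (ℓ i)| ≤ 1 := by
    intro f hf ℓ
    rw [abs_mul, Finset.abs_prod]
    exact mul_le_one₀ (hG1 ℓ) (Finset.prod_nonneg fun i _ => abs_nonneg _)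
      (Finset.prod_le_one (fun i _ => abs_nonneg _) fun i _ => hf i (ℓ i))
  have hEpL : ∀ f : Fin 2 → ℕ → ℝ, (∀ i t, |f i t| ≤ 1) →
      |EpL 2 N (fun ℓ => G ℓ * ∏ i, f i (ℓ i))| ≤ δ := by
    intro f hf
    have e : EpL 2 N (fun ℓ => G ℓ * ∏ i, f i (ℓ i)) =
        1 / 2 * EpL 2 N (fun ℓ => (F ℓ - S ℓ) * ∏ i, f i (ℓ i)) := by
      unfold EpL
      rw [Finset.mul_sum]
      refine Finset.sum_congr rfl fun ℓ _ => ?_
      rw [hG]
      ring
    rw [e, abs_mul, abs_of_pos (by norm_num : (0 : ℝ) < 1 / 2)]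
    have := hcutr f hf
    linarith
  have hκ : ∀ M ∈ Finset.Icc 1 N,
      BoxLeU 2 M (if ¬ δ * Real.log N ≤ Real.log M then 1 else 2 * δ) ∨
      CutLe 2 M (if ¬ δ * Real.log N ≤ Real.log M then 1 else 2 * δ) G := by
    intro M hM
    rw [Finset.mem_Icc] at hM
    right
    intro f hf
    by_cases hc : δ * Real.log N ≤ Real.log M
    · rw [if_neg (not_not.2 hc)]
      have g1 := h2 N hN2 M hM.2 hc (fun ℓ => G ℓ * ∏ i, f i (ℓ i)) (hprod f hf)
      have g2 := hEpL f hf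
      have g3 := abs_le.1 g1
      have g4 := abs_le.1 g2
      rw [abs_le]
      constructor <;> linarith [g3.1, g3.2, g4.1, g4.2]
    · rw [if_pos hc]
      exact Ep_abs_le_of 2 M _ hM.1 (hprod f hf)
  have h5 := h1 N hN1 (fun _ => G) (fun _ ℓ => hG1 ℓ)
    (fun M => if ¬ δ * Real.log N ≤ Real.log M then 1 else 2 * δ) hκ
  have h6 : ∑ M ∈ Finset.Icc 1 N, (1 / (M : ℝ)) *
      (if ¬ δ * Real.log N ≤ Real.log M then 1 else 2 * δ) ≤
      2 * δ * (1 + Real.log N) + (1 + δ * Real.log N) := by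
    have g1 : ∀ M ∈ Finset.Icc 1 N, (1 / (M : ℝ)) *
      (if ¬ δ * Real.log N ≤ Real.log M then 1 else 2 * δ) ≤
      2 * δ * (1 / (M : ℝ)) + (if ¬ δ * Real.log N ≤ Real.log M then 1 / (M : ℝ) else 0) := by
      intro M _
      have hM0 : (0 : ℝ) ≤ 1 / (M : ℝ) := by positivity
      have := mul_nonneg hδ0.le hM0
      split_ifs
      · linarith
      · linarith
    refine (Finset.sum_le_sum g1).trans ?_
    rw [Finset.sum_add_distrib, ← Finset.mul_sum, ← Finset.sum_filter]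
    have g2 := g_small N hN5 δ hδ0
    have g3 := mul_le_mul_of_nonneg_left (g_harm N) (by positivity : 0 ≤ 2 * δ)
    linarith
  have hEmEp : ∀ M, Em 2 M F - Ep 2 M F = (Em 2 M S - Ep 2 M S) +
      2 * (Em 2 M G - Ep 2 M G) := by
    intro M
    have e1 : Em 2 M G = 1 / 2 * (Em 2 M F - Em 2 M S) := by
      rw [hG, Em_smul' 2 M (1 / 2) (fun ℓ => F ℓ - S ℓ), Em_sub']
    have e2 : Ep 2 M G = 1 / 2 * (Ep 2 M F - Ep 2 M S) := by
      rw [hG, Ep_smul' 2 M (1 / 2) (fun ℓ => F ℓ - S ℓ), Ep_sub']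
    rw [e1, e2]
    ring
  have hSsum : ∑ M ∈ Finset.Icc 1 N, (1 / (M : ℝ)) * |Em 2 M S - Ep 2 M S| ≤
      ε / 4 * Real.log N := by
    have g1 : ∀ M ∈ Finset.Icc 1 N, (1 / (M : ℝ)) * |Em 2 M S - Ep 2 M S| ≤
        ∑ j : Fin J, (1 / (M : ℝ)) *
          |Em 2 M (fun ℓ => if ∀ i, ℓ i ∈ A j i then (1 : ℝ) else 0) -
            Ep 2 M (fun ℓ => if ∀ i, ℓ i ∈ A j i then (1 : ℝ) else 0)| := by
      intro M _
      rw [← Finset.mul_sum]
      apply mul_le_mul_of_nonneg_left _ (by positivity)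
      rw [hSdef, g_Em_sum M J c (fun j ℓ => if ∀ i, ℓ i ∈ A j i then (1 : ℝ) else 0)]
      refine (Finset.abs_sum_le_sum_abs _ _).trans (Finset.sum_le_sum fun j _ => ?_)
      rw [abs_mul]
      exact mul_le_of_le_one_left (abs_nonneg _) (hc j)
    refine (Finset.sum_le_sum g1).trans ?_
    rw [Finset.sum_comm]
    refine (Finset.sum_le_card_nsmul _ _ (ε / (4 * (CB + 1)) * Real.log N)
      (fun j _ => h4 N hN3 (A j))).trans ?_
    rw [Finset.card_univ, Fintype.card_fin, nsmul_eq_mul]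
    have g2 : (J : ℝ) ≤ CB + 1 := by
      have : (J : ℝ) ≤ CB := by exact_mod_cast hJ
      linarith
    calc (J : ℝ) * (ε / (4 * (CB + 1)) * Real.log N) ≤
          (CB + 1) * (ε / (4 * (CB + 1)) * Real.log N) :=
          mul_le_mul_of_nonneg_right g2 (by positivity)
      _ = ε / 4 * Real.log N := by
        field_simp
  have hfin : ∑ M ∈ Finset.Icc 1 N, (1 / (M : ℝ)) * |Em 2 M F - Ep 2 M F| ≤
      ∑ M ∈ Finset.Icc 1 N, (1 / (M : ℝ)) * |Em 2 M S - Ep 2 M S| +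
        2 * ∑ M ∈ Finset.Icc 1 N, (1 / (M : ℝ)) * |Em 2 M G - Ep 2 M G| := by
    rw [Finset.mul_sum, ← Finset.sum_add_distrib]
    refine Finset.sum_le_sum fun M _ => ?_
    rw [hEmEp M]
    have g1 := abs_add_le (Em 2 M S - Ep 2 M S) (2 * (Em 2 M G - Ep 2 M G))
    rw [abs_mul, abs_of_pos (by norm_num : (0 : ℝ) < 2)] at g1
    have g2 := mul_le_mul_of_nonneg_left g1 (by positivity : (0 : ℝ) ≤ 1 / (M : ℝ))
    refine g2.trans (le_of_eq ?_)
    ring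
  have h7 : C * ∑ M ∈ Finset.Icc 1 N, (1 / (M : ℝ)) *
      (if ¬ δ * Real.log N ≤ Real.log M then 1 else 2 * δ) ≤
      C * (2 * δ * (1 + Real.log N) + (1 + δ * Real.log N)) :=
    mul_le_mul_of_nonneg_left h6 hC0
  have h8 : 6 * (C * δ) ≤ ε / 4 := by
    have e : (C + 1) * δ = ε / 24 := by
      rw [hδ]
      field_simp
    nlinarith
  have h9 : 6 * (C * δ) * Real.log N ≤ ε / 4 * Real.log N :=
    mul_le_mul_of_nonneg_right h8 hlog0
  have h10 : 4 * (C * (4 * δ + 2)) ≤ ε * Real.log N := by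
    have := mul_le_mul_of_nonneg_left hlog hε.le
    rwa [mul_div_cancel₀ _ hε.ne'] at this
  have h5' : ∑ M ∈ Finset.Icc 1 N, (1 / (M : ℝ)) * |Em 2 M G - Ep 2 M G| ≤
      ε / 8 * Real.log N + C * ∑ M ∈ Finset.Icc 1 N, (1 / (M : ℝ)) *
      (if ¬ δ * Real.log N ≤ Real.log M then 1 else 2 * δ) := h5
  linarith

end MRP
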